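import Mathlib

/-!
Plane fields, foliations of codimension one, leafwise contact structures and Engel structures on
a closed flat four-manifold `M = E4 / Γ`.  All objects on `M` are written as the `Γ`-invariant
objects on the universal cover `E4`.
-/

open Topology Module

namespace Run7.h329.Engel

/-- Euclidean four-space. -/
abbrev E4 : Type := EuclideanSpace ℝ (Fin 4)

/-- Fields of linear subspaces on `E4`. -/
abbrev Fld : Type := E4 → Submodule ℝ E4

/-- The vector field `V` is smooth at `x`. -/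
abbrev Smooth (V : E4 → E4) (x : E4) : Prop := ContDiffAt ℝ (⊤ : ℕ∞) V x

/-- The function `h` is smooth at `x`. -/
abbrev SmoothFn (h : E4 → ℝ) (x : E4) : Prop := ContDiffAt ℝ (⊤ : ℕ∞) h x

/-- The differential of the map `g` at `x`. -/
noncomputable def dif (g : E4 → E4) (x : E4) : E4 →ₗ[ℝ] E4 := (fderiv ℝ g x).toLinearMap

/-- The kernel of the differential of the function `h` at `x`. -/
noncomputable def kdif (h : E4 → ℝ) (x : E4) : Submodule ℝ E4 :=
  LinearMap.ker (fderiv ℝ h x).toLinearMap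

/-- `Γ` is a group of isometries of `E4` which acts freely, properly discontinuously and
cocompactly.  Then `M = E4 / Γ` is a closed (compact, without boundary) flat four-manifold. -/
structure IsDeck (Γ : Set (E4 → E4)) : Prop where
  isom : ∀ g ∈ Γ, Isometry g
  one : id ∈ Γ
  mul : ∀ g ∈ Γ, ∀ h ∈ Γ, g ∘ h ∈ Γ
  inv : ∀ g ∈ Γ, ∃ h ∈ Γ, g ∘ h = id ∧ h ∘ g = id
  free : ∀ g ∈ Γ, g ≠ id → ∀ x, g x ≠ x
  proper : ∀ K : Set E4, IsCompact K → {g | g ∈ Γ ∧ ∃ x ∈ K, g x ∈ K}.Finite
  cocompact : ∃ K : Set E4, IsCompact K ∧ ∀ x, ∃ g ∈ Γ, g x ∈ K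

/-- The field of subspaces `D` is `Γ`-invariant, that is, it descends to `M = E4 / Γ`. -/
def Inv (Γ : Set (E4 → E4)) (D : Fld) : Prop := ∀ g ∈ Γ, ∀ x, D (g x) = (D x).map (dif g x)

/-- The vector field `X` is `Γ`-invariant, that is, it descends to `M = E4 / Γ`. -/
def InvField (Γ : Set (E4 → E4)) (X : E4 → E4) : Prop := ∀ g ∈ Γ, ∀ x, X (g x) = dif g x (X x)

/-- `X 0, …, X (k-1)` is a smooth frame of the plane field `D` near the point `x`. -/
def IsFrame (k : ℕ) (D : Fld) (x : E4) (X : Fin k → E4 → E4) : Prop :=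
  ∀ᶠ y in 𝓝 x, (∀ i, Smooth (X i) y) ∧ LinearIndependent ℝ (fun i => X i y) ∧
    D y = Submodule.span ℝ (Set.range fun i => X i y)

/-- `D` is a smooth distribution of rank `k`: it has a smooth frame near every point. -/
def IsDist (k : ℕ) (D : Fld) : Prop := ∀ x : E4, ∃ X : Fin k → E4 → E4, IsFrame k D x X

/-- `V` is a smooth section of the plane field `D` near the point `x`. -/
def IsSec (D : Fld) (x : E4) (V : E4 → E4) : Prop := ∀ᶠ y in 𝓝 x, Smooth V y ∧ V y ∈ D y

/-- `[D, D]`: at `x` the span of `D x` and of all values at `x` of Lie brackets of smooth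
sections of `D` defined near `x`. -/
def brk (D : Fld) (x : E4) : Submodule ℝ E4 :=
  D x ⊔ Submodule.span ℝ
    {v | ∃ V W : E4 → E4, IsSec D x V ∧ IsSec D x W ∧ v = VectorField.lieBracket ℝ V W x}

/-- `F` is the tangent field of a smooth foliation of codimension one: near each point
the leaves are the level sets of a smooth function without critical points. -/
def IsFoliation (F : Fld) : Prop :=
  ∀ x : E4, ∃ h : E4 → ℝ, ∀ᶠ y in 𝓝 x, SmoothFn h y ∧ kdif h y ≠ ⊤ ∧ F y = kdif h y

/-- `ξ` is a leafwise contact structure for the foliation with tangent field `F`: a smooth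
rank-two field tangent to the leaves with `[ξ, ξ] = F`. -/
def IsLeafContact (F ξ : Fld) : Prop := IsDist 2 ξ ∧ ∀ x, ξ x ≤ F x ∧ brk ξ x = F x

/-- `ξ` is the direct sum of the line fields `L₁` and `L₂`. -/
def Splits (ξ L₁ L₂ : Fld) : Prop :=
  IsDist 1 L₁ ∧ IsDist 1 L₂ ∧ ∀ x, L₁ x ⊓ L₂ x = ⊥ ∧ L₁ x ⊔ L₂ x = ξ x

/-- The data of the question on `M = E4 / Γ`: a foliation of codimension one (tangent field `F`),
a leafwise contact structure `ξ`, and a splitting of `ξ` as the sum of the line fields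
`L₁` and `L₂`. -/
structure IsData (Γ : Set (E4 → E4)) (F ξ L₁ L₂ : Fld) : Prop where
  deck : IsDeck Γ
  inv : Inv Γ F ∧ Inv Γ ξ ∧ Inv Γ L₁ ∧ Inv Γ L₂
  fol : IsFoliation F
  contact : IsLeafContact F ξ
  splits : Splits ξ L₁ L₂

/-- `D` is (the lift of) an Engel structure on `M = E4 / Γ`. -/
def IsEngel (Γ : Set (E4 → E4)) (D : Fld) : Prop :=
  Inv Γ D ∧ IsDist 2 D ∧ IsDist 3 (brk D) ∧ ∀ x, brk (brk D) x = ⊤

/-- `D` is uniformly `ε`-close to `D'` (for the flat metric of `M = E4 / Γ`): every vector `v` of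
`D x` is at distance at most `ε ‖v‖` from `D' x`. -/
def Near (ε : ℝ) (D D' : Fld) : Prop := ∀ x, ∀ v ∈ D x, ∃ w ∈ D' x, ‖v - w‖ ≤ ε * ‖v‖

/-- The pair `(F, ξ)` on `M = E4 / Γ` can be perturbed to an Engel structure: there are Engel
structures `D` on `M` arbitrarily `C⁰`-close to `ξ` with `[D, D]` arbitrarily `C⁰`-close to
`F`. -/
def Perturbable (Γ : Set (E4 → E4)) (F ξ : Fld) : Prop :=
  ∀ ε > 0, ∃ D, IsEngel Γ D ∧ Near ε D ξ ∧ Near ε (brk D) F

/-- No Engel structure `D` on `M = E4 / Γ` is `ε`-close to `ξ` with `ε < 1` (that is, with all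
angles between `D` and `ξ` smaller than a right angle); nothing is asked of `[D, D]`. -/
def NoEngelNear (Γ : Set (E4 → E4)) (ξ : Fld) : Prop := ∀ D, IsEngel Γ D → ∀ ε < 1, ¬ Near ε D ξ

/-- The quotient `M = E4 / Γ` is orientable: the isometries in `Γ` preserve the orientation. -/
def Oriented (Γ : Set (E4 → E4)) : Prop := ∀ g ∈ Γ, ∀ x, 0 < LinearMap.det (dif g x)

/-- The hyperplane field `F` on `M = E4 / Γ` is coorientable: it has a smooth transverse vector
field on `M`. -/
def Coorientable (Γ : Set (E4 → E4)) (F : Fld) : Prop :=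
  ∃ n : E4 → E4, InvField Γ n ∧ ∀ x, Smooth n x ∧ n x ∉ F x

/-- The line field `L` on `M = E4 / Γ` is spanned by a nowhere zero smooth vector field of `M`. -/
def TrivialLine (Γ : Set (E4 → E4)) (L : Fld) : Prop :=
  ∃ X : E4 → E4, InvField Γ X ∧ ∀ x, Smooth X x ∧ X x ≠ 0 ∧ L x = Submodule.span ℝ {X x}

end Run7.h329.Engel
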