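import Pool.Agent.Run7.h329.Eng.Group

open Topology Module VectorField

namespace Run7.h329.Engel

/-- parameters of the first group -/
noncomputable def f1 (m k a b : ℤ) : (Fin 4 → ℤˣ) × (Fin 4 → ℝ) :=
  (![m.negOnePow, 1, m.negOnePow, 1], ![2 * Real.pi * k, a, b, m])

/-- parameters of the second group -/
noncomputable def f2 (k a b m : ℤ) : (Fin 4 → ℤˣ) × (Fin 4 → ℝ) :=
  (![1, k.negOnePow, k.negOnePow, a.negOnePow], ![Real.pi * k, a, b, m])

/-- the first set of data -/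
def S1 : Set ((Fin 4 → ℤˣ) × (Fin 4 → ℝ)) := {p | ∃ m k a b : ℤ, p = f1 m k a b}

/-- the second set of data -/
def S2 : Set ((Fin 4 → ℤˣ) × (Fin 4 → ℝ)) := {p | ∃ k a b m : ℤ, p = f2 k a b m}

lemma S1_good : GoodSet S1 where
  one := by
    refine ⟨0, 0, 0, 0, ?_⟩
    ext i
    · fin_cases i <;> simp [f1]
    · fin_cases i <;> simp [f1]
  mul := by
    rintro s v s' v' ⟨m, k, a, b, h⟩ ⟨m', k', a', b', h'⟩
    simp only [f1, Prod.mk.injEq] at h h'
    obtain ⟨rfl, rfl⟩ := h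
    obtain ⟨rfl, rfl⟩ := h'
    refine ⟨m + m', m.negOnePow * k' + k, a' + a, m.negOnePow * b' + b, ?_⟩
    ext i
    · fin_cases i <;> simp [f1, Int.negOnePow_add]
    · fin_cases i
      · simp [f1]; ring
      · simp [f1]
      · simp [f1]
      · simp [f1]; ring
  inv := by
    rintro s v ⟨m, k, a, b, h⟩
    simp only [f1, Prod.mk.injEq] at h
    obtain ⟨rfl, rfl⟩ := h
    refine ⟨-m, -(m.negOnePow * k), -a, -(m.negOnePow * b), ?_⟩
    ext i
    · fin_cases i <;> simp [f1, Int.negOnePow_neg]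
    · fin_cases i
      · simp [f1]; ring
      · simp [f1]
      · simp [f1]
      · simp [f1]

lemma parity (u : ℤˣ) (a' a : ℤ) : ((u : ℤ) * a' + a).negOnePow = a.negOnePow * a'.negOnePow := by
  rcases Int.units_eq_one_or u with h | h
  · subst h
    simp [Int.negOnePow_add, mul_comm]
  · subst h
    simp [Int.negOnePow_add, Int.negOnePow_neg, mul_comm]

lemma S2_good : GoodSet S2 where
  one := by
    refine ⟨0, 0, 0, 0, ?_⟩
    ext i
    · fin_cases i <;> simp [f2]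
    · fin_cases i <;> simp [f2]
  mul := by
    rintro s v s' v' ⟨k, a, b, m, h⟩ ⟨k', a', b', m', h'⟩
    simp only [f2, Prod.mk.injEq] at h h'
    obtain ⟨rfl, rfl⟩ := h
    obtain ⟨rfl, rfl⟩ := h'
    refine ⟨k + k', k.negOnePow * a' + a, k.negOnePow * b' + b, a.negOnePow * m' + m, ?_⟩
    ext i
    · fin_cases i
      · simp [f2]
      · simp [f2, Int.negOnePow_add]
      · simp [f2, Int.negOnePow_add]
      · simp [f2, parity]
    · fin_cases i
      · simp [f2]; ring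
      · simp [f2]
      · simp [f2]
      · simp [f2]
  inv := by
    rintro s v ⟨k, a, b, m, h⟩
    simp only [f2, Prod.mk.injEq] at h
    obtain ⟨rfl, rfl⟩ := h
    refine ⟨-k, -(k.negOnePow * a), -(k.negOnePow * b), -(a.negOnePow * m), ?_⟩
    ext i
    · fin_cases i
      · simp [f2]
      · simp [f2, Int.negOnePow_neg]
      · simp [f2, Int.negOnePow_neg]
      · have := parity k.negOnePow a 0
        simp at this
        simp [f2, Int.negOnePow_neg, this]
    · fin_cases i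
      · simp [f2]
      · simp [f2]
      · simp [f2]
      · simp [f2]

lemma unit_cos (u : ℤˣ) (x : ℝ) : Real.cos (((u : ℤ) : ℝ) * x) = Real.cos x := by
  rcases Int.units_eq_one_or u with h | h <;> subst h <;> simp

lemma unit_sin (u : ℤˣ) (x : ℝ) : Real.sin (((u : ℤ) : ℝ) * x) = ((u : ℤ) : ℝ) * Real.sin x := by
  rcases Int.units_eq_one_or u with h | h <;> subst h <;> simp

lemma adapt1 (m k a b : ℤ) : AdaptV (1 / 2) (dg (f1 m k a b).1 (f1 m k a b).2)
    ((m.negOnePow : ℤ) : ℝ) ((k.negOnePow : ℤ) : ℝ) := by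
  refine ⟨sq_unit _, sq_unit _, ?_, ?_⟩
  · ext i
    rw [dg_lin, PiLp.smul_apply, smul_eq_mul]
    fin_cases i <;> simp [f1, e1]
  · intro y
    have hk := sq_unit k.negOnePow
    have h0 : (1 / 2 : ℝ) * (dg (f1 m k a b).1 (f1 m k a b).2 y) 0 =
        ((m.negOnePow : ℤ) : ℝ) * (1 / 2 * y 0) + k * Real.pi := by
      rw [dg_apply]
      simp only [f1, Matrix.cons_val_zero]
      ring
    ext i
    rw [PiLp.smul_apply, smul_eq_mul, dg_lin]
    fin_cases i
    · simp [e2]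
    · show e2 (1 / 2) _ 1 = _ * (_ * e2 (1 / 2) y 1)
      rw [e2_one, e2_one, h0, Real.cos_add_int_mul_pi, unit_cos, ← Int.cast_negOnePow]
      simp [f1]
    · show e2 (1 / 2) _ 2 = _ * (_ * e2 (1 / 2) y 2)
      rw [e2_two, e2_two, h0, Real.sin_add_int_mul_pi, unit_sin, ← Int.cast_negOnePow]
      simp [f1]
    · simp [e2]

lemma adapt2 (k a b m : ℤ) : AdaptV 1 (dg (f2 k a b m).1 (f2 k a b m).2) 1 1 := by
  refine ⟨by norm_num, by norm_num, ?_, ?_⟩
  · ext i
    rw [dg_lin, PiLp.smul_apply, smul_eq_mul]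
    fin_cases i <;> simp [f2, e1]
  · intro y
    have h0 : (1 : ℝ) * (dg (f2 k a b m).1 (f2 k a b m).2 y) 0 = 1 * y 0 + k * Real.pi := by
      rw [dg_apply]
      simp [f2]
      ring
    ext i
    rw [PiLp.smul_apply, smul_eq_mul, dg_lin]
    fin_cases i
    · simp [e2]
    · show e2 1 _ 1 = _ * (_ * e2 1 y 1)
      rw [e2_one, e2_one, h0, Real.cos_add_int_mul_pi, ← Int.cast_negOnePow]
      simp [f2]
    · show e2 1 _ 2 = _ * (_ * e2 1 y 2)
      rw [e2_two, e2_two, h0, Real.sin_add_int_mul_pi, ← Int.cast_negOnePow]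
      simp [f2]
    · simp [e2]

lemma fin_param (R : ℝ) (f : ℤ × ℤ × ℤ × ℤ → (Fin 4 → ℤˣ) × (Fin 4 → ℝ))
    (h : ∀ p, (∀ i, |(f p).2 i| ≤ R) → (|(p.1 : ℝ)| ≤ R ∧ |(p.2.1 : ℝ)| ≤ R ∧
      |(p.2.2.1 : ℝ)| ≤ R ∧ |(p.2.2.2 : ℝ)| ≤ R)) :
    {q : (Fin 4 → ℤˣ) × (Fin 4 → ℝ) | (∃ p, q = f p) ∧ ∀ i, |q.2 i| ≤ R}.Finite := by
  set I := Set.Icc (-⌈R⌉) ⌈R⌉
  have hI : I.Finite := Set.finite_Icc _ _
  have hF := (hI.prod (hI.prod (hI.prod hI))).image f
  apply hF.subset
  rintro q ⟨⟨p, rfl⟩, hq⟩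
  have key : ∀ n : ℤ, |(n : ℝ)| ≤ R → n ∈ I := by
    intro n hn
    rw [abs_le] at hn
    constructor
    · have : (-⌈R⌉ : ℝ) ≤ n := by linarith [Int.le_ceil R, hn.1]
      exact_mod_cast this
    · have : (n : ℝ) ≤ ⌈R⌉ := by linarith [Int.le_ceil R, hn.2]
      exact_mod_cast this
  obtain ⟨h1, h2, h3, h4⟩ := h p hq
  exact ⟨p, ⟨key _ h1, key _ h2, key _ h3, key _ h4⟩, rfl⟩

lemma floor_bound (x : ℝ) : |x + ((-⌊x⌋ : ℤ) : ℝ)| ≤ 10 := by
  push_cast
  rw [abs_le]
  constructor <;> linarith [Int.floor_le x, Int.lt_floor_add_one x]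

lemma floor_bound2 (c x : ℝ) (hc : 0 < c) (hc2 : c ≤ 10) :
    |x + c * ((-⌊x / c⌋ : ℤ) : ℝ)| ≤ 10 := by
  have h1 := Int.floor_le (x / c)
  have h2 := Int.lt_floor_add_one (x / c)
  rw [le_div_iff₀ hc] at h1
  rw [div_lt_iff₀ hc] at h2
  push_cast
  rw [abs_le]
  constructor <;> nlinarith

lemma closed1 : IsDeck (grp S1) := by
  apply closed_of S1_good
  · rintro s v ⟨m, k, a, b, h⟩ x hx
    simp only [f1, Prod.mk.injEq] at h
    obtain ⟨rfl, rfl⟩ := h
    have h3 := hx 3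
    simp at h3
    subst h3
    have h0 := hx 0
    have h1 := hx 1
    have h2 := hx 2
    simp [Real.pi_ne_zero] at h0 h1 h2
    subst h0 h1 h2
    constructor
    · ext i; fin_cases i <;> simp
    · ext i; fin_cases i <;> simp
  · intro R
    have := fin_param R (fun p => f1 p.1 p.2.1 p.2.2.1 p.2.2.2) (by
      rintro ⟨m, k, a, b⟩ h
      have h0 := h 0
      have h1 := h 1
      have h2 := h 2
      have h3 := h 3
      simp only [f1, Matrix.cons_val_zero, Matrix.cons_val_one, Matrix.cons_val] at h0 h1 h2 h3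
      refine ⟨h3, ?_, h1, h2⟩
      rw [abs_mul] at h0
      have hp : (1 : ℝ) ≤ |2 * Real.pi| := by
        rw [abs_of_pos (by positivity)]
        linarith [Real.pi_gt_three]
      show |(k : ℝ)| ≤ R
      nlinarith [abs_nonneg (k : ℝ)])
    apply this.subset
    rintro q ⟨⟨m, k, a, b, h⟩, hq⟩
    exact ⟨⟨(m, k, a, b), h⟩, hq⟩
  · intro x
    have hp : Real.pi < 3.15 := Real.pi_lt_d2
    refine ⟨_, _, ⟨-⌊x 3⌋, -⌊(((-⌊x 3⌋).negOnePow : ℤ) : ℝ) * x 0 / (2 * Real.pi)⌋, -⌊x 1⌋,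
      -⌊(((-⌊x 3⌋).negOnePow : ℤ) : ℝ) * x 2⌋, rfl⟩, fun i => ?_⟩
    fin_cases i
    · exact floor_bound2 (2 * Real.pi) _ (by positivity) (by linarith)
    · have := floor_bound (x 1)
      simpa using this
    · exact floor_bound _
    · have := floor_bound (x 3)
      simpa using this

lemma closed2 : IsDeck (grp S2) := by
  apply closed_of S2_good
  · rintro s v ⟨k, a, b, m, h⟩ x hx
    simp only [f2, Prod.mk.injEq] at h
    obtain ⟨rfl, rfl⟩ := h
    have h0 := hx 0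
    simp [Real.pi_ne_zero] at h0
    subst h0
    have h1 := hx 1
    have h2 := hx 2
    simp at h1 h2
    subst h1 h2
    have h3 := hx 3
    simp at h3
    subst h3
    constructor
    · ext i; fin_cases i <;> simp
    · ext i; fin_cases i <;> simp
  · intro R
    have := fin_param R (fun p => f2 p.1 p.2.1 p.2.2.1 p.2.2.2) (by
      rintro ⟨k, a, b, m⟩ h
      have h0 := h 0
      have h1 := h 1
      have h2 := h 2
      have h3 := h 3
      simp only [f2, Matrix.cons_val_zero, Matrix.cons_val_one, Matrix.cons_val] at h0 h1 h2 h3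
      refine ⟨?_, h1, h2, h3⟩
      rw [abs_mul] at h0
      have hp : (1 : ℝ) ≤ |Real.pi| := by
        rw [abs_of_pos (by positivity)]
        linarith [Real.pi_gt_three]
      show |(k : ℝ)| ≤ R
      nlinarith [abs_nonneg (k : ℝ)])
    apply this.subset
    rintro q ⟨⟨k, a, b, m, h⟩, hq⟩
    exact ⟨⟨(k, a, b, m), h⟩, hq⟩
  · intro x
    have hp : Real.pi < 3.15 := Real.pi_lt_d2
    refine ⟨_, _, ⟨-⌊x 0 / Real.pi⌋, -⌊(((-⌊x 0 / Real.pi⌋).negOnePow : ℤ) : ℝ) * x 1⌋,
      -⌊(((-⌊x 0 / Real.pi⌋).negOnePow : ℤ) : ℝ) * x 2⌋,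
      -⌊(((-⌊(((-⌊x 0 / Real.pi⌋).negOnePow : ℤ) : ℝ) * x 1⌋).negOnePow : ℤ) : ℝ) * x 3⌋, rfl⟩,
      fun i => ?_⟩
    fin_cases i
    · have := floor_bound2 Real.pi (x 0) (by positivity) (by linarith)
      simpa using this
    · exact floor_bound _
    · exact floor_bound _
    · exact floor_bound _

lemma cont_pt {f : ℝ × ℝ → E4} (h : ∀ i, Continuous fun p => f p i) : Continuous f := by
  rw [← contDiff_zero (𝕜 := ℝ), contDiff_euclidean]
  intro i
  exact contDiff_zero.mpr (h i)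

lemma no_engel1 (D : E4 → Submodule ℝ E4) (hD : IsEngel (grp S1) D) (ε : ℝ)
    (hε : ε < 1) : ¬ Near ε D (xi (1 / 2)) := by
  intro hN
  obtain ⟨hinv, h2, h3, h4⟩ := hD
  obtain ⟨A, B, hA, hB, hne, heq⟩ := exists_section h2 h3 h4 (near_ND hε hN)
  have hpt : Continuous fun p : ℝ × ℝ => (!₂[p.1, 0, 0, p.2] : E4) := by
    apply cont_pt
    intro i
    fin_cases i
    · exact continuous_fst
    · exact continuous_const
    · exact continuous_const
    · exact continuous_snd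
  have key : ∀ m k : ℤ, ∀ y : E4,
      A (dg (f1 m k 0 0).1 (f1 m k 0 0).2 y) = ((m.negOnePow : ℤ) : ℝ) * A y ∧
      B (dg (f1 m k 0 0).1 (f1 m k 0 0).2 y) = ((k.negOnePow : ℤ) : ℝ) * B y := by
    intro m k y
    have hd : LinearMap.det (dg (f1 m k 0 0).1
        (f1 m k 0 0).2).linearIsometryEquiv.toLinearEquiv.toLinearMap = 1 := by
      rw [dg_det, Fin.prod_univ_four]
      simp only [f1, Matrix.cons_val_zero, Matrix.cons_val_one, Matrix.cons_val]
      have := sq_unit m.negOnePow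
      simp only [Units.val_one, Int.cast_one, mul_one]
      exact this
    have h := heq (dg (f1 m k 0 0).1 (f1 m k 0 0).2) _ _ (sq_unit m.negOnePow)
      (sq_unit k.negOnePow) (fun x => by
        have := hinv (dg (f1 m k 0 0).1 (f1 m k 0 0).2) ⟨_, _, ⟨m, k, 0, 0, rfl⟩, rfl⟩ x
        rwa [dif_dg] at this) (adapt1 m k 0 0).adapt y
    rw [hd, one_mul, one_mul] at h
    exact h
  have p1 : ∀ a b : ℝ, dg (f1 0 1 0 0).1 (f1 0 1 0 0).2 !₂[a, 0, 0, b]
      = !₂[a + 2 * Real.pi, 0, 0, b] := by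
    intro a b
    ext i
    rw [dg_apply]
    fin_cases i <;> simp [f1]
  have p2 : ∀ a b : ℝ, dg (f1 1 0 0 0).1 (f1 1 0 0 0).2 !₂[a, 0, 0, b]
      = !₂[-a, 0, 0, b + 1] := by
    intro a b
    ext i
    rw [dg_apply]
    fin_cases i <;> simp [f1]
  refine no_section_one (z := fun p => (⟨A !₂[p.1, 0, 0, p.2], B !₂[p.1, 0, 0, p.2]⟩ : ℂ))
    (T := 2 * Real.pi) (S := 1) ?_ ?_ ?_ ?_
  · have h1 := (Complex.continuous_ofReal.comp (hA.comp hpt)).add
      ((Complex.continuous_ofReal.comp (hB.comp hpt)).mul (continuous_const (y := Complex.I)))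
    refine h1.congr fun p => ?_
    apply Complex.ext <;> simp
  · intro p hp
    have h1 := congrArg Complex.re hp
    have h5 := congrArg Complex.im hp
    simp at h1 h5
    rcases hne !₂[p.1, 0, 0, p.2] with h | h
    · exact h h1
    · exact h h5
  · intro a b
    have h1 := key 0 1 !₂[a, 0, 0, b]
    rw [p1] at h1
    apply Complex.ext
    · simp [h1.1]
    · simp [h1.2]
  · intro a b
    have h1 := key 1 0 !₂[a, 0, 0, b]
    rw [p2] at h1
    apply Complex.ext
    · simp [h1.1]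
    · simp [h1.2]

lemma no_engel2 (D : E4 → Submodule ℝ E4) (hD : IsEngel (grp S2) D) (ε : ℝ)
    (hε : ε < 1) : ¬ Near ε D (xi 1) := by
  intro hN
  obtain ⟨hinv, h2, h3, h4⟩ := hD
  obtain ⟨A, B, hA, hB, hne, heq⟩ := exists_section h2 h3 h4 (near_ND hε hN)
  have hpt : Continuous fun p : ℝ × ℝ => (!₂[p.1, p.2, 0, 0] : E4) := by
    apply cont_pt
    intro i
    fin_cases i
    · exact continuous_fst
    · exact continuous_snd
    · exact continuous_const
    · exact continuous_const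
  have key : ∀ k a : ℤ, ∀ y : E4,
      A (dg (f2 k a 0 0).1 (f2 k a 0 0).2 y) = ((a.negOnePow : ℤ) : ℝ) * A y ∧
      B (dg (f2 k a 0 0).1 (f2 k a 0 0).2 y) = ((a.negOnePow : ℤ) : ℝ) * B y := by
    intro k a y
    have hd : LinearMap.det (dg (f2 k a 0 0).1
        (f2 k a 0 0).2).linearIsometryEquiv.toLinearEquiv.toLinearMap =
          ((a.negOnePow : ℤ) : ℝ) := by
      rw [dg_det, Fin.prod_univ_four]
      simp only [f2, Matrix.cons_val_zero, Matrix.cons_val_one, Matrix.cons_val]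
      have := sq_unit k.negOnePow
      simp only [Units.val_one, Int.cast_one, one_mul]
      rw [this, one_mul]
    have h := heq (dg (f2 k a 0 0).1 (f2 k a 0 0).2) 1 1 (by norm_num)
      (by norm_num) (fun x => by
        have := hinv (dg (f2 k a 0 0).1 (f2 k a 0 0).2) ⟨_, _, ⟨k, a, 0, 0, rfl⟩, rfl⟩ x
        rwa [dif_dg] at this) (adapt2 k a 0 0).adapt y
    rw [hd, one_mul, one_mul] at h
    exact h
  have p1 : ∀ a b : ℝ, dg (f2 1 0 0 0).1 (f2 1 0 0 0).2 !₂[a, b, 0, 0]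
      = !₂[a + Real.pi, -b, 0, 0] := by
    intro a b
    ext i
    rw [dg_apply]
    fin_cases i <;> simp [f2]
  have p2 : ∀ a b : ℝ, dg (f2 0 1 0 0).1 (f2 0 1 0 0).2 !₂[a, b, 0, 0]
      = !₂[a, b + 1, 0, 0] := by
    intro a b
    ext i
    rw [dg_apply]
    fin_cases i <;> simp [f2]
  refine no_section_two (z := fun p => (⟨A !₂[p.1, p.2, 0, 0], B !₂[p.1, p.2, 0, 0]⟩ : ℂ))
    (T := Real.pi) (S := 1) ?_ ?_ ?_ ?_
  · have h1 := (Complex.continuous_ofReal.comp (hA.comp hpt)).add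
      ((Complex.continuous_ofReal.comp (hB.comp hpt)).mul (continuous_const (y := Complex.I)))
    refine h1.congr fun p => ?_
    apply Complex.ext <;> simp
  · intro p hp
    have h1 := congrArg Complex.re hp
    have h5 := congrArg Complex.im hp
    simp at h1 h5
    rcases hne !₂[p.1, p.2, 0, 0] with h | h
    · exact h h1
    · exact h h5
  · intro a b
    have h1 := key 1 0 !₂[a, b, 0, 0]
    rw [p1] at h1
    apply Complex.ext
    · simp [h1.1]
    · simp [h1.2]
  · intro a b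
    have h1 := key 0 1 !₂[a, b, 0, 0]
    rw [p2] at h1
    apply Complex.ext
    · simp [h1.1]
    · simp [h1.2]

end Run7.h329.Engel
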