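import Pool.Agent.Run7.h329.Eng.Defs

open Topology Module VectorField

namespace Run7.h329.Engel

/-- the linear map with columns `v i` -/
noncomputable def col {k : ℕ} (v : Fin k → E4) : (Fin k → ℝ) →L[ℝ] E4 :=
  ∑ i, (ContinuousLinearMap.proj i : (Fin k → ℝ) →L[ℝ] ℝ).smulRight (v i)

lemma col_apply {k : ℕ} (v : Fin k → E4) (c : Fin k → ℝ) : col v c = ∑ i, c i • v i := by
  simp [col]

lemma col_contDiffAt {k : ℕ} {n : WithTop ℕ∞} {X : Fin k → E4 → E4} {x : E4}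
    (hX : ∀ i, ContDiffAt ℝ n (X i) x) : ContDiffAt ℝ n (fun y => col (fun i => X i y)) x := by
  unfold col
  apply ContDiffAt.sum
  intro i _
  have := (ContinuousLinearMap.smulRightL ℝ (Fin k → ℝ) E4
    (ContinuousLinearMap.proj i : (Fin k → ℝ) →L[ℝ] ℝ)).contDiff (n := n)
  exact this.contDiffAt.comp x (hX i)

lemma col_injective {k : ℕ} {v : Fin k → E4} (h : LinearIndependent ℝ v) :
    Function.Injective (col v) := by
  rw [injective_iff_map_eq_zero]
  intro c hc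
  rw [col_apply] at hc
  funext i
  exact Fintype.linearIndependent_iff.mp h c hc i

/-- Smooth coefficients. -/
lemma coef {k : ℕ} {n : WithTop ℕ∞} {X : Fin k → E4 → E4} {x : E4}
    (hX : ∀ i, ContDiffAt ℝ n (X i) x) (hLI : LinearIndependent ℝ (fun i => X i x))
    {G : E4 → E4} (hG : ContDiffAt ℝ n G x)
    (hs : ∀ᶠ y in 𝓝 x, G y ∈ Submodule.span ℝ (Set.range fun i => X i y)) :
    ∃ a : Fin k → E4 → ℝ, (∀ i, ContDiffAt ℝ n (a i) x) ∧
      ∀ᶠ y in 𝓝 x, G y = ∑ i, a i y • X i y := by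
  obtain ⟨P, hP⟩ := LinearMap.exists_leftInverse_of_injective
    (col (fun i => X i x) : (Fin k → ℝ) →ₗ[ℝ] E4)
    (LinearMap.ker_eq_bot.mpr (by simpa using col_injective hLI))
  let P' : E4 →L[ℝ] (Fin k → ℝ) := LinearMap.toContinuousLinearMap P
  let A : E4 → ((Fin k → ℝ) →L[ℝ] (Fin k → ℝ)) := fun y => P'.comp (col (fun i => X i y))
  have hA : ContDiffAt ℝ n A x := by
    have := (ContinuousLinearMap.compL ℝ (Fin k → ℝ) E4 (Fin k → ℝ) P').contDiff (n := n)
    exact this.contDiffAt.comp x (col_contDiffAt hX)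
  have hAx : A x = ContinuousLinearMap.id ℝ _ := by
    ext c i
    have := LinearMap.congr_fun hP c
    simp only [A, P', ContinuousLinearMap.comp_apply, ContinuousLinearMap.id_apply]
    exact congrFun this i
  have hinv : ContDiffAt ℝ n (fun y => ContinuousLinearMap.inverse (A y)) x := by
    have h1 : ContDiffAt ℝ n (ContinuousLinearMap.inverse :
        ((Fin k → ℝ) →L[ℝ] (Fin k → ℝ)) → _) (A x) := by
      rw [hAx]
      exact contDiffAt_map_inverse (ContinuousLinearEquiv.refl ℝ (Fin k → ℝ))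
    exact h1.comp x hA
  have hb : ContDiffAt ℝ n (fun y => ContinuousLinearMap.inverse (A y) (P' (G y))) x :=
    hinv.clm_apply (P'.contDiff.contDiffAt.comp x hG)
  refine ⟨fun i y => ContinuousLinearMap.inverse (A y) (P' (G y)) i, fun i => ?_, ?_⟩
  · exact ((ContinuousLinearMap.proj i : (Fin k → ℝ) →L[ℝ] ℝ).contDiff).contDiffAt.comp x hb
  · have hev : ∀ᶠ y in 𝓝 x, A y ∈ Set.range
        ((↑) : ((Fin k → ℝ) ≃L[ℝ] (Fin k → ℝ)) → ((Fin k → ℝ) →L[ℝ] (Fin k → ℝ))) := by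
      have h2 : Set.range ((↑) : ((Fin k → ℝ) ≃L[ℝ] (Fin k → ℝ)) →
          ((Fin k → ℝ) →L[ℝ] (Fin k → ℝ))) ∈ 𝓝 (A x) := by
        rw [hAx]
        exact ContinuousLinearEquiv.nhds (ContinuousLinearEquiv.refl ℝ (Fin k → ℝ))
      exact hA.continuousAt h2
    filter_upwards [hev, hs] with y hy hsy
    obtain ⟨e, he⟩ := hy
    obtain ⟨c, hc⟩ := (Submodule.mem_span_range_iff_exists_fun ℝ).1 hsy
    have h3 : P' (G y) = e c := by
      have : G y = col (fun i => X i y) c := by rw [col_apply, hc]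
      rw [this]
      show A y c = e c
      rw [← he]; rfl
    have h4 : ContinuousLinearMap.inverse (A y) (P' (G y)) = c := by
      rw [h3, ← he, ContinuousLinearMap.inverse_equiv]
      simp
    simp only [h4]
    exact hc.symm

/-- The derivative of a combination, modulo the frame. -/
lemma fderiv_comb {k : ℕ} {X : Fin k → E4 → E4} {a : Fin k → E4 → ℝ} {P : E4 → E4} {x : E4}
    (hX : ∀ i, DifferentiableAt ℝ (X i) x) (ha : ∀ i, DifferentiableAt ℝ (a i) x)
    (hP : ∀ᶠ y in 𝓝 x, P y = ∑ i, a i y • X i y) (β : E4 →ₗ[ℝ] ℝ) (hβ : ∀ i, β (X i x) = 0)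
    (v : E4) : β (fderiv ℝ P x v) = ∑ i, a i x * β (fderiv ℝ (X i) x v) := by
  have h1 : fderiv ℝ P x = fderiv ℝ (fun y => ∑ i, a i y • X i y) x :=
    Filter.EventuallyEq.fderiv_eq hP
  have h2 : fderiv ℝ (fun y => ∑ i, a i y • X i y) x
      = ∑ i, (a i x • fderiv ℝ (X i) x + (fderiv ℝ (a i) x).smulRight (X i x)) := by
    apply HasFDerivAt.fderiv
    exact HasFDerivAt.fun_sum (fun i _ => (ha i).hasFDerivAt.smul (hX i).hasFDerivAt)
  rw [h1, h2]
  simp only [sum_apply, add_apply,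
    smul_apply, ContinuousLinearMap.smulRight_apply, map_sum, map_add,
    map_smul, smul_eq_mul, hβ, mul_zero, add_zero]

lemma lie_comb {k : ℕ} {X : Fin k → E4 → E4} {a b : Fin k → E4 → ℝ} {P Q : E4 → E4} {x : E4}
    (hX : ∀ i, DifferentiableAt ℝ (X i) x) (ha : ∀ i, DifferentiableAt ℝ (a i) x)
    (hb : ∀ i, DifferentiableAt ℝ (b i) x)
    (hP : ∀ᶠ y in 𝓝 x, P y = ∑ i, a i y • X i y) (hQ : ∀ᶠ y in 𝓝 x, Q y = ∑ i, b i y • X i y)
    (β : E4 →ₗ[ℝ] ℝ) (hβ : ∀ i, β (X i x) = 0)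
    (hβ2 : ∀ i j, β (lieBracket ℝ (X i) (X j) x) = 0) : β (lieBracket ℝ P Q x) = 0 := by
  have hPx := hP.self_of_nhds
  have hQx := hQ.self_of_nhds
  rw [lieBracket, map_sub, fderiv_comb hX hb hQ β hβ, fderiv_comb hX ha hP β hβ, hPx, hQx]
  simp only [map_sum, map_smul, smul_eq_mul, Finset.mul_sum]
  rw [Finset.sum_comm, ← Finset.sum_sub_distrib]
  refine Finset.sum_eq_zero fun i _ => ?_
  rw [← Finset.sum_sub_distrib]
  refine Finset.sum_eq_zero fun j _ => ?_
  have := hβ2 i j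
  rw [lieBracket, map_sub] at this
  linear_combination (a i x * b j x) * this

/-- Bound for `[D, D]` from a frame. -/
lemma brk_le {k : ℕ} {D : E4 → Submodule ℝ E4} {X : Fin k → E4 → E4} {x : E4}
    (hX : IsFrame k D x X) (β : E4 →ₗ[ℝ] ℝ) (hβ : ∀ i, β (X i x) = 0)
    (hβ2 : ∀ i j, β (lieBracket ℝ (X i) (X j) x) = 0) : brk D x ≤ LinearMap.ker β := by
  have hx := hX.self_of_nhds
  obtain ⟨hs, hLI, hspan⟩ := hx
  refine sup_le ?_ ?_
  · rw [hspan, Submodule.span_le]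
    rintro _ ⟨i, rfl⟩
    exact hβ i
  · rw [Submodule.span_le]
    rintro _ ⟨P, Q, hP, hQ, rfl⟩
    have key : ∀ {P : E4 → E4}, IsSec D x P → ∃ a : Fin k → E4 → ℝ,
        (∀ i, ContDiffAt ℝ (⊤ : ℕ∞) (a i) x) ∧ ∀ᶠ y in 𝓝 x, P y = ∑ i, a i y • X i y := by
      intro P hP
      refine coef hs hLI hP.self_of_nhds.1 ?_
      filter_upwards [hP, hX] with y h1 h2
      rw [← h2.2.2]
      exact h1.2
    obtain ⟨a, ha, ha'⟩ := key hP
    obtain ⟨b, hb, hb'⟩ := key hQ
    exact lie_comb (fun i => (hs i).differentiableAt (by simp))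
      (fun i => (ha i).differentiableAt (by simp)) (fun i => (hb i).differentiableAt (by simp))
      ha' hb' β hβ hβ2

end Run7.h329.Engel
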