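import Pool.Agent.Run7.h329.Eng.Frame

open Topology Module VectorField

namespace Run7.h329.Engel

/-- the first leafwise contact vector field -/
noncomputable def e1 : E4 := !₂[1, 0, 0, 0]

/-- the second leafwise contact vector field -/
noncomputable def e2 (κ : ℝ) (y : E4) : E4 := !₂[0, Real.cos (κ * y 0), Real.sin (κ * y 0), 0]

/-- inner product with `e2` -/
noncomputable def p2 (κ : ℝ) (y v : E4) : ℝ := Real.cos (κ * y 0) * v 1 + Real.sin (κ * y 0) * v 2

/-- `D` is nowhere orthogonal to the plane spanned by `e1`, `e2`. -/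
def ND (κ : ℝ) (D : E4 → Submodule ℝ E4) : Prop :=
  ∀ y, ∀ v ∈ D y, v 0 = 0 → p2 κ y v = 0 → v = 0

lemma contDiff_coord (i : Fin 4) {n : WithTop ℕ∞} : ContDiff ℝ n (fun v : E4 => v i) :=
  (EuclideanSpace.proj i : E4 →L[ℝ] ℝ).contDiff

lemma p2_smooth (κ : ℝ) {n : WithTop ℕ∞} {X : E4 → E4} {x : E4} (hX : ContDiffAt ℝ n X x) :
    ContDiffAt ℝ n (fun y => p2 κ y (X y)) x := by
  unfold p2
  have h1 : ContDiffAt ℝ n (fun y : E4 => X y 1) x := (contDiff_coord 1).contDiffAt.comp x hX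
  have h2 : ContDiffAt ℝ n (fun y : E4 => X y 2) x := (contDiff_coord 2).contDiffAt.comp x hX
  have h0 : ContDiffAt ℝ n (fun y : E4 => κ * y 0) x :=
    contDiffAt_const.mul (contDiff_coord 0).contDiffAt
  exact (h0.cos.mul h1).add (h0.sin.mul h2)

/-- The canonical global frame of a plane field nowhere orthogonal to the model. -/
lemma global_frame {κ : ℝ} {D : E4 → Submodule ℝ E4} (hD : IsDist 2 D) (hN : ND κ D) :
    ∃ U V : E4 → E4, ContDiff ℝ (⊤ : ℕ∞) U ∧ ContDiff ℝ (⊤ : ℕ∞) V ∧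
      ∀ y, U y ∈ D y ∧ V y ∈ D y ∧ U y 0 = 1 ∧ p2 κ y (U y) = 0 ∧ V y 0 = 0 ∧
        p2 κ y (V y) = 1 := by
  have hp2s : ∀ (y : E4) (a b : ℝ) (u v : E4), p2 κ y (a • u + b • v) = a * p2 κ y u + b * p2 κ y v := by
    intro y a b u v
    simp [p2]
    ring
  have loc : ∀ x, ∃ U V : E4 → E4, ∀ᶠ y in 𝓝 x, ContDiffAt ℝ (⊤ : ℕ∞) U y ∧
      ContDiffAt ℝ (⊤ : ℕ∞) V y ∧ U y ∈ D y ∧ V y ∈ D y ∧ U y 0 = 1 ∧ p2 κ y (U y) = 0 ∧
        V y 0 = 0 ∧ p2 κ y (V y) = 1 := by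
    intro x
    obtain ⟨X, hX⟩ := hD x
    let G : E4 → ℝ := fun y => X 0 y 0 * p2 κ y (X 1 y) - X 1 y 0 * p2 κ y (X 0 y)
    refine ⟨fun y => (G y)⁻¹ • (p2 κ y (X 1 y) • X 0 y + (-p2 κ y (X 0 y)) • X 1 y),
      fun y => (G y)⁻¹ • ((-X 1 y 0) • X 0 y + (X 0 y 0) • X 1 y), ?_⟩
    filter_upwards [hX] with y hy
    obtain ⟨hs, hLI, hspan⟩ := hy
    have hm : ∀ i, X i y ∈ D y := fun i => by
      rw [hspan]; exact Submodule.subset_span ⟨i, rfl⟩
    have hLI2 : ∀ a b : ℝ, a • X 0 y + b • X 1 y = 0 → a = 0 ∧ b = 0 := by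
      intro a b hab
      have h := Fintype.linearIndependent_iff.mp hLI ![a, b] (by simpa using hab)
      exact ⟨h 0, h 1⟩
    have hG : G y ≠ 0 := by
      intro hG
      have hG' : X 0 y 0 * p2 κ y (X 1 y) - X 1 y 0 * p2 κ y (X 0 y) = 0 := hG
      have hu := hN y (p2 κ y (X 1 y) • X 0 y + (-p2 κ y (X 0 y)) • X 1 y)
        (Submodule.add_mem _ (Submodule.smul_mem _ _ (hm 0)) (Submodule.smul_mem _ _ (hm 1)))
        (by simp; linarith) (by rw [hp2s]; ring)
      have hv := hN y ((-X 1 y 0) • X 0 y + (X 0 y 0) • X 1 y)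
        (Submodule.add_mem _ (Submodule.smul_mem _ _ (hm 0)) (Submodule.smul_mem _ _ (hm 1)))
        (by simp; ring) (by rw [hp2s]; linarith)
      have h1 := hLI2 _ _ hu
      have h2 := hLI2 _ _ hv
      have h3 := hN y (X 0 y) (hm 0) h2.2 (by linarith [h1.2])
      have h4 := hLI2 1 0 (by simp [h3])
      exact one_ne_zero h4.1
    have c0 : ∀ i, ContDiffAt ℝ (⊤ : ℕ∞) (fun y => X i y 0) y := fun i =>
      (contDiff_coord 0).contDiffAt.comp y (hs i)
    have c2 : ∀ i, ContDiffAt ℝ (⊤ : ℕ∞) (fun y => p2 κ y (X i y)) y := fun i =>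
      p2_smooth κ (hs i)
    have cG : ContDiffAt ℝ (⊤ : ℕ∞) (fun y => (G y)⁻¹) y :=
      (((c0 0).mul (c2 1)).sub ((c0 1).mul (c2 0))).inv hG
    refine ⟨?_, ?_, ?_, ?_, ?_, ?_, ?_, ?_⟩
    · exact cG.smul (((c2 1).smul (hs 0)).add ((c2 0).neg.smul (hs 1)))
    · exact cG.smul (((c0 1).neg.smul (hs 0)).add ((c0 0).smul (hs 1)))
    · exact Submodule.smul_mem _ _ (Submodule.add_mem _ (Submodule.smul_mem _ _ (hm 0))
        (Submodule.smul_mem _ _ (hm 1)))
    · exact Submodule.smul_mem _ _ (Submodule.add_mem _ (Submodule.smul_mem _ _ (hm 0))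
        (Submodule.smul_mem _ _ (hm 1)))
    · have : G y = X 0 y 0 * p2 κ y (X 1 y) - X 1 y 0 * p2 κ y (X 0 y) := rfl
      simp only [PiLp.smul_apply, PiLp.add_apply, smul_eq_mul]
      rw [inv_mul_eq_one₀ hG, this]
      ring
    · have := hp2s y ((G y)⁻¹) 0 (p2 κ y (X 1 y) • X 0 y + (-p2 κ y (X 0 y)) • X 1 y) 0
      simp only [zero_smul, add_zero, zero_mul] at this
      rw [this, hp2s]
      ring
    · simp only [PiLp.smul_apply, PiLp.add_apply, smul_eq_mul]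
      ring
    · have := hp2s y ((G y)⁻¹) 0 ((-X 1 y 0) • X 0 y + (X 0 y 0) • X 1 y) 0
      simp only [zero_smul, add_zero, zero_mul] at this
      have h5 : G y = X 0 y 0 * p2 κ y (X 1 y) - X 1 y 0 * p2 κ y (X 0 y) := rfl
      rw [this, hp2s, inv_mul_eq_one₀ hG, h5]
      ring
  have hex : ∀ y, ∃ u v : E4, u ∈ D y ∧ v ∈ D y ∧ u 0 = 1 ∧ p2 κ y u = 0 ∧ v 0 = 0 ∧
      p2 κ y v = 1 := by
    intro y
    obtain ⟨U, V, h⟩ := loc y
    have := h.self_of_nhds
    exact ⟨U y, V y, this.2.2⟩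
  choose U V hUV using hex
  have uniq : ∀ y, ∀ u ∈ D y, ∀ v ∈ D y, u 0 = v 0 → p2 κ y u = p2 κ y v → u = v := by
    intro y u hu v hv h1 h2
    have h3 := hN y (u - v) (Submodule.sub_mem _ hu hv) (by simp [h1]) (by
      have := hp2s y 1 (-1) u v
      simp only [one_smul, neg_smul, ← sub_eq_add_neg] at this
      rw [this, h2]
      ring)
    exact sub_eq_zero.mp h3
  refine ⟨U, V, ?_, ?_, hUV⟩
  · rw [contDiff_iff_contDiffAt]
    intro x
    obtain ⟨U', V', h⟩ := loc x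
    refine h.self_of_nhds.1.congr_of_eventuallyEq ?_
    filter_upwards [h] with y hy
    exact uniq y _ (hUV y).1 _ hy.2.2.1 (by rw [(hUV y).2.2.1, hy.2.2.2.2.1])
      (by rw [(hUV y).2.2.2.1, hy.2.2.2.2.2.1])
  · rw [contDiff_iff_contDiffAt]
    intro x
    obtain ⟨U', V', h⟩ := loc x
    refine h.self_of_nhds.2.1.congr_of_eventuallyEq ?_
    filter_upwards [h] with y hy
    exact uniq y _ (hUV y).2.1 _ hy.2.2.2.1 (by rw [(hUV y).2.2.2.2.1, hy.2.2.2.2.2.2.1])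
      (by rw [(hUV y).2.2.2.2.2, hy.2.2.2.2.2.2.2])

/-- equivariance of a vector field up to a factor -/
def Eqv (g : E4 ≃ᵃⁱ[ℝ] E4) (s : ℝ) (X : E4 → E4) : Prop :=
  ∀ y, X (g y) = s • g.linearIsometryEquiv (X y)

lemma hasFDerivAt_iso (g : E4 ≃ᵃⁱ[ℝ] E4) (y : E4) :
    HasFDerivAt g (g.linearIsometryEquiv.toContinuousLinearEquiv : E4 →L[ℝ] E4) y := by
  have h : (g : E4 → E4) = fun y => g.linearIsometryEquiv y + g 0 := by
    funext y
    have := g.map_vadd 0 y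
    simpa using this
  rw [h]
  exact ((g.linearIsometryEquiv.toContinuousLinearEquiv : E4 →L[ℝ] E4).hasFDerivAt).add_const _

lemma Eqv.drv {g : E4 ≃ᵃⁱ[ℝ] E4} {s : ℝ} {X : E4 → E4} (h : Eqv g s X)
    (hX : Differentiable ℝ X) (y v : E4) :
    fderiv ℝ X (g y) (g.linearIsometryEquiv v) = s • g.linearIsometryEquiv (fderiv ℝ X y v) := by
  have h1 : HasFDerivAt (fun y => X (g y)) ((fderiv ℝ X (g y)).comp
      (g.linearIsometryEquiv.toContinuousLinearEquiv : E4 →L[ℝ] E4)) y :=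
    (hX (g y)).hasFDerivAt.comp y (hasFDerivAt_iso g y)
  have h2 : HasFDerivAt (fun y => X (g y)) (s •
      (g.linearIsometryEquiv.toContinuousLinearEquiv : E4 →L[ℝ] E4).comp (fderiv ℝ X y)) y := by
    have h3 : (fun y => X (g y)) = fun y => s • g.linearIsometryEquiv (X y) := funext h
    rw [h3]
    exact (((g.linearIsometryEquiv.toContinuousLinearEquiv : E4 →L[ℝ] E4).hasFDerivAt).comp y
      (hX y).hasFDerivAt).const_smul s
  have h4 := ContinuousLinearMap.ext_iff.mp (h1.unique h2) v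
  simpa using h4

lemma Eqv.lie {g : E4 ≃ᵃⁱ[ℝ] E4} {s t : ℝ} {X Y : E4 → E4} (hX : Eqv g s X) (hY : Eqv g t Y)
    (dX : Differentiable ℝ X) (dY : Differentiable ℝ Y) : Eqv g (s * t) (lieBracket ℝ X Y) := by
  intro y
  simp only [lieBracket]
  rw [hX y, hY y, map_smul, map_smul, hX.drv dX, hY.drv dY, map_sub, smul_sub, smul_smul,
    smul_smul, mul_comm t s]

/-- the determinant form on `E4` -/
noncomputable def vol : E4 [⋀^Fin 4]→ₗ[ℝ] ℝ := (EuclideanSpace.basisFun (Fin 4) ℝ).toBasis.det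

/-- the functional `w ↦ vol (w, X 0, X 1, X 2)` -/
noncomputable def bt (X : Fin 3 → E4) : E4 →ₗ[ℝ] ℝ where
  toFun w := vol (Fin.cons w X)
  map_add' x y := vol.toMultilinearMap.cons_add X x y
  map_smul' c x := vol.toMultilinearMap.cons_smul X c x

lemma bt_apply (X : Fin 3 → E4) (w : E4) : bt X w = vol (Fin.cons w X) := rfl

lemma bt_self (X : Fin 3 → E4) (i : Fin 3) : bt X (X i) = 0 := by
  rw [bt_apply]
  exact vol.map_eq_zero_of_eq _ (i := 0) (j := i.succ) (by simp) (Fin.succ_ne_zero i).symm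

lemma bt_ne {X : Fin 3 → E4} (hX : LinearIndependent ℝ X) : LinearMap.ker (bt X) ≠ ⊤ := by
  have h1 : Submodule.span ℝ (Set.range X) ≠ ⊤ := by
    intro h
    have h2 := finrank_span_eq_card hX
    rw [h, finrank_top] at h2
    simp at h2
  obtain ⟨w, hw⟩ : ∃ w, w ∉ Submodule.span ℝ (Set.range X) := by
    by_contra hcon
    push Not at hcon
    exact h1 (eq_top_iff.mpr fun w _ => hcon w)
  have h3 : LinearIndependent ℝ (Fin.cons w X : Fin 4 → E4) :=
    linearIndependent_finCons.mpr ⟨hX, hw⟩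
  have h4 := h3.span_eq_top_of_card_eq_finrank (by simp)
  have h5 := ((EuclideanSpace.basisFun (Fin 4) ℝ).toBasis.is_basis_iff_det).mp ⟨h3, h4⟩
  intro h
  have h6 : w ∈ LinearMap.ker (bt X) := by rw [h]; trivial
  rw [LinearMap.mem_ker, bt_apply] at h6
  exact h5.ne_zero h6

lemma vol_continuous {X : Fin 3 → E4 → E4} {W : E4 → E4} (hX : ∀ i, Continuous (X i))
    (hW : Continuous W) : Continuous fun y => bt (fun i => X i y) (W y) := by
  simp only [bt_apply, vol, Basis.det_apply]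
  apply Continuous.matrix_det
  refine continuous_pi fun i => continuous_pi fun j => ?_
  simp only [Basis.toMatrix_apply]
  have : ∀ v : E4, ((EuclideanSpace.basisFun (Fin 4) ℝ).toBasis.repr v) i = v i := by
    intro v
    simp
  simp only [this]
  refine (contDiff_coord i (n := 0)).continuous.comp ?_
  refine Fin.cases ?_ (fun k => ?_) j
  · simpa using hW
  · simpa using hX k

end Run7.h329.Engel
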