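import Pool.Agent.Run7.h329.Eng.Model

open Topology Module VectorField

namespace Run7.h329.Engel

/-- multiplication by a sign, as a linear isometry of the line -/
noncomputable def sgnIso (u : ℤˣ) : ℝ ≃ₗᵢ[ℝ] ℝ :=
  if u = 1 then LinearIsometryEquiv.refl ℝ ℝ else LinearIsometryEquiv.neg ℝ

lemma sgnIso_apply (u : ℤˣ) (x : ℝ) : sgnIso u x = ((u : ℤ) : ℝ) * x := by
  rcases Int.units_eq_one_or u with h | h
  · subst h
    simp [sgnIso]
  · subst h
    have : (-1 : ℤˣ) ≠ 1 := by decide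
    simp [sgnIso, this]

/-- the isometry `x i ↦ s i * x i + v i` -/
noncomputable def dg (s : Fin 4 → ℤˣ) (v : Fin 4 → ℝ) : E4 ≃ᵃⁱ[ℝ] E4 :=
  (LinearIsometryEquiv.piLpCongrRight 2 (fun i => sgnIso (s i))).toAffineIsometryEquiv.trans
    (AffineIsometryEquiv.constVAdd ℝ E4 (WithLp.toLp 2 v))

lemma dg_apply (s : Fin 4 → ℤˣ) (v : Fin 4 → ℝ) (x : E4) (i : Fin 4) :
    dg s v x i = ((s i : ℤ) : ℝ) * x i + v i := by
  simp only [dg, AffineIsometryEquiv.coe_trans, Function.comp_apply,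
    AffineIsometryEquiv.coe_constVAdd, LinearIsometryEquiv.coe_toAffineIsometryEquiv,
    vadd_eq_add, PiLp.add_apply, LinearIsometryEquiv.piLpCongrRight_apply, sgnIso_apply]
  ring

lemma lin_eq (g : E4 ≃ᵃⁱ[ℝ] E4) (w : E4) : g.linearIsometryEquiv w = g w - g 0 := by
  have := g.map_vadd 0 w
  simp only [vadd_eq_add, add_zero] at this
  rw [this, add_sub_cancel_right]

lemma dg_lin (s : Fin 4 → ℤˣ) (v : Fin 4 → ℝ) (w : E4) (i : Fin 4) :
    (dg s v).linearIsometryEquiv w i = ((s i : ℤ) : ℝ) * w i := by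
  rw [lin_eq, PiLp.sub_apply, dg_apply, dg_apply]
  simp

lemma sq_unit (u : ℤˣ) : ((u : ℤ) : ℝ) * ((u : ℤ) : ℝ) = 1 := by
  rcases Int.units_eq_one_or u with h | h <;> subst h <;> simp

/-- sets of data closed under the composition law -/
structure GoodSet (S : Set ((Fin 4 → ℤˣ) × (Fin 4 → ℝ))) : Prop where
  one : ((1 : Fin 4 → ℤˣ), (0 : Fin 4 → ℝ)) ∈ S
  mul : ∀ s v s' v', (s, v) ∈ S → (s', v') ∈ S →
    (s * s', fun i => ((s i : ℤ) : ℝ) * v' i + v i) ∈ S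
  inv : ∀ s v, (s, v) ∈ S → (s, fun i => -(((s i : ℤ) : ℝ) * v i)) ∈ S

lemma dg_mul (s s' : Fin 4 → ℤˣ) (v v' : Fin 4 → ℝ) :
    dg s v * dg s' v' = dg (s * s') (fun i => ((s i : ℤ) : ℝ) * v' i + v i) := by
  ext x i
  rw [AffineIsometryEquiv.coe_mul, Function.comp_apply, dg_apply, dg_apply, dg_apply]
  simp only [Pi.mul_apply, Units.val_mul, Int.cast_mul]
  ring

lemma dg_one : dg 1 0 = 1 := by
  ext x i
  rw [dg_apply]
  simp

/-- the group of a good set -/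
def grp (S : Set ((Fin 4 → ℤˣ) × (Fin 4 → ℝ))) : Set (E4 → E4) :=
  {g | ∃ s v, (s, v) ∈ S ∧ g = dg s v}

lemma dif_dg (s : Fin 4 → ℤˣ) (v : Fin 4 → ℝ) (x : E4) :
    dif (dg s v) x = (dg s v).linearIsometryEquiv.toLinearEquiv.toLinearMap := by
  rw [dif, (hasFDerivAt_iso (dg s v) x).fderiv]
  rfl

/-- the determinant of a sign isometry -/
lemma dg_det (s : Fin 4 → ℤˣ) (v : Fin 4 → ℝ) :
    LinearMap.det (dg s v).linearIsometryEquiv.toLinearEquiv.toLinearMap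
      = ∏ i, ((s i : ℤ) : ℝ) := by
  set b := (EuclideanSpace.basisFun (Fin 4) ℝ).toBasis with hb
  have h1 := b.det_comp (dg s v).linearIsometryEquiv.toLinearEquiv.toLinearMap b
  have h2 : ((dg s v).linearIsometryEquiv.toLinearEquiv.toLinearMap ∘ b) =
      fun i => ((s i : ℤ) : ℝ) • b i := by
    funext i
    ext j
    have h3 : ((dg s v).linearIsometryEquiv (b i)) j = ((s j : ℤ) : ℝ) * b i j := dg_lin _ _ _ _
    show ((dg s v).linearIsometryEquiv (b i)) j = _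
    rw [h3, PiLp.smul_apply, smul_eq_mul]
    by_cases hij : j = i
    · rw [hij]
    · have : b i j = 0 := by
        simp [hb, hij]
      rw [this]
      simp
  rw [h2, AlternatingMap.map_smul_univ, Basis.det_self, smul_eq_mul, mul_one, mul_one] at h1
  exact h1.symm

lemma inner_e1 (w : E4) : inner ℝ e1 w = w 0 := by
  simp [PiLp.inner_apply, Fin.sum_univ_four, e1]

lemma inner_e2 (κ : ℝ) (y w : E4) : inner ℝ (e2 κ y) w = p2 κ y w := by
  simp [PiLp.inner_apply, Fin.sum_univ_four, e2, p2]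
  ring

/-- strong form of adaptation -/
def AdaptV (κ : ℝ) (g : E4 ≃ᵃⁱ[ℝ] E4) (s t : ℝ) : Prop :=
  s * s = 1 ∧ t * t = 1 ∧ g.linearIsometryEquiv e1 = s • e1 ∧
    ∀ y, e2 κ (g y) = t • g.linearIsometryEquiv (e2 κ y)

lemma AdaptV.adapt {κ : ℝ} {g : E4 ≃ᵃⁱ[ℝ] E4} {s t : ℝ} (h : AdaptV κ g s t) :
    Adapt κ g s t := by
  obtain ⟨hs, ht, h1, h2⟩ := h
  refine ⟨fun v => ?_, fun y v => ?_⟩
  · rw [← inner_e1, ← inner_e1]
    have h3 : e1 = s • g.linearIsometryEquiv e1 := by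
      rw [h1, smul_smul, hs, one_smul]
    conv_lhs => rw [h3]
    rw [inner_smul_left, LinearIsometryEquiv.inner_map_map]
    simp
  · rw [← inner_e2, ← inner_e2, h2, inner_smul_left, LinearIsometryEquiv.inner_map_map]
    simp

lemma span_unit_smul {c : ℝ} (hc : c * c = 1) (v : E4) :
    Submodule.span ℝ {c • v} = Submodule.span ℝ {v} := by
  apply Submodule.span_singleton_smul_eq
  exact isUnit_iff_ne_zero.mpr (by rintro rfl; simp at hc)

lemma AdaptV.L1_map {κ : ℝ} {g : E4 ≃ᵃⁱ[ℝ] E4} {s t : ℝ} (h : AdaptV κ g s t) (x : E4) :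
    L1 (g x) = (L1 x).map g.linearIsometryEquiv.toLinearEquiv.toLinearMap := by
  obtain ⟨hs, ht, h1, h2⟩ := h
  rw [L1, L1, Submodule.map_span, Set.image_singleton]
  show _ = Submodule.span ℝ {g.linearIsometryEquiv e1}
  rw [h1, span_unit_smul hs]

lemma AdaptV.L2_map {κ : ℝ} {g : E4 ≃ᵃⁱ[ℝ] E4} {s t : ℝ} (h : AdaptV κ g s t) (x : E4) :
    L2 κ (g x) = (L2 κ x).map g.linearIsometryEquiv.toLinearEquiv.toLinearMap := by
  obtain ⟨hs, ht, h1, h2⟩ := h
  rw [L2, L2, Submodule.map_span, Set.image_singleton, h2, span_unit_smul ht]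
  rfl

lemma AdaptV.xi_map {κ : ℝ} {g : E4 ≃ᵃⁱ[ℝ] E4} {s t : ℝ} (h : AdaptV κ g s t) (x : E4) :
    xi κ (g x) = (xi κ x).map g.linearIsometryEquiv.toLinearEquiv.toLinearMap := by
  rw [xi, xi, Submodule.map_sup, h.L1_map, h.L2_map]

lemma Fol_map (s : Fin 4 → ℤˣ) (v : Fin 4 → ℝ) :
    Fol = Fol.map (dg s v).linearIsometryEquiv.toLinearEquiv.toLinearMap := by
  ext w
  rw [Submodule.mem_map]
  constructor
  · intro hw
    refine ⟨(dg s v).linearIsometryEquiv.symm w, ?_, ?_⟩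
    · rw [mem_Fol] at hw ⊢
      have h1 := dg_lin s v ((dg s v).linearIsometryEquiv.symm w) 3
      rw [LinearIsometryEquiv.apply_symm_apply, hw] at h1
      have h2 := sq_unit (s 3)
      rcases mul_eq_zero.mp h1.symm with h3 | h3
      · rw [h3] at h2
        simp at h2
      · exact h3
    · exact (dg s v).linearIsometryEquiv.apply_symm_apply w
  · rintro ⟨u, hu, rfl⟩
    rw [mem_Fol] at hu ⊢
    show ((dg s v).linearIsometryEquiv u) 3 = 0
    rw [dg_lin, hu, mul_zero]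

/-- Criterion for a closed quotient. -/
lemma closed_of {S : Set ((Fin 4 → ℤˣ) × (Fin 4 → ℝ))} (hS : GoodSet S)
    (hfree : ∀ s v, (s, v) ∈ S → ∀ x : Fin 4 → ℝ, (∀ i, ((s i : ℤ) : ℝ) * x i + v i = x i) →
      s = 1 ∧ v = 0)
    (hfin : ∀ R : ℝ, {p : (Fin 4 → ℤˣ) × (Fin 4 → ℝ) | p ∈ S ∧ ∀ i, |p.2 i| ≤ R}.Finite)
    (hco : ∀ x : Fin 4 → ℝ, ∃ s v, (s, v) ∈ S ∧ ∀ i, |((s i : ℤ) : ℝ) * x i + v i| ≤ 10) :
    IsDeck (grp S) where
  isom := by
    rintro _ ⟨s, v, h, rfl⟩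
    exact (dg s v).isometry
  one := ⟨1, 0, hS.one, by rw [dg_one]; rfl⟩
  mul := by
    rintro _ ⟨s, v, h, rfl⟩ _ ⟨s', v', h', rfl⟩
    refine ⟨_, _, hS.mul _ _ _ _ h h', ?_⟩
    rw [← dg_mul]
    rfl
  inv := by
    rintro _ ⟨s, v, h, rfl⟩
    refine ⟨_, ⟨_, _, hS.inv _ _ h, rfl⟩, ?_, ?_⟩
    · have h1 : dg s v * dg s (fun i => -(((s i : ℤ) : ℝ) * v i)) = 1 := by
        rw [dg_mul, ← dg_one]
        congr 1
        · funext i
          simp [Int.units_mul_self]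
        · funext i
          simp only [Pi.zero_apply]
          have := sq_unit (s i)
          linear_combination (-(v i)) * this
      exact congrArg (fun g : E4 ≃ᵃⁱ[ℝ] E4 => (g : E4 → E4)) h1
    · have h1 : dg s (fun i => -(((s i : ℤ) : ℝ) * v i)) * dg s v = 1 := by
        rw [dg_mul, ← dg_one]
        congr 1
        · funext i
          simp [Int.units_mul_self]
        · funext i
          simp only [Pi.zero_apply]
          ring
      exact congrArg (fun g : E4 ≃ᵃⁱ[ℝ] E4 => (g : E4 → E4)) h1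
  free := by
    rintro _ ⟨s, v, hsv, rfl⟩ hne x hx
    apply hne
    have := hfree s v hsv x (fun i => by rw [← dg_apply, hx])
    rw [this.1, this.2, dg_one]
    rfl
  proper := by
    intro K hK
    obtain ⟨R, hR⟩ := hK.isBounded.exists_norm_le
    have h1 : ∀ x ∈ K, ∀ i, |x i| ≤ R := by
      intro x hx i
      have := PiLp.norm_apply_le x i
      rw [Real.norm_eq_abs] at this
      exact this.trans (hR x hx)
    apply ((hfin (R + R)).image (fun p => (dg p.1 p.2 : E4 → E4))).subset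
    rintro g ⟨⟨s, v, hsv, rfl⟩, x, hx, hgx⟩
    refine ⟨(s, v), ⟨hsv, fun i => ?_⟩, rfl⟩
    have h2 := h1 _ hgx i
    have h3 := h1 _ hx i
    rw [dg_apply] at h2
    have h4 : |((s i : ℤ) : ℝ) * x i| ≤ R := by
      rw [abs_mul]
      rcases Int.units_eq_one_or (s i) with h | h <;> rw [h] <;> simpa using h3
    rw [abs_le] at h2 h4 ⊢
    constructor <;> linarith [h2.1, h2.2, h4.1, h4.2]
  cocompact := by
    refine ⟨Metric.closedBall 0 20, isCompact_closedBall _ _, fun x => ?_⟩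
    obtain ⟨s, v, hsv, h⟩ := hco x
    refine ⟨dg s v, ⟨s, v, hsv, rfl⟩, ?_⟩
    rw [mem_closedBall_zero_iff, EuclideanSpace.norm_eq, Fin.sum_univ_four]
    apply Real.sqrt_le_iff.mpr
    refine ⟨by norm_num, ?_⟩
    have h2 : ∀ i, ‖dg s v x i‖ ^ 2 ≤ 100 := by
      intro i
      rw [dg_apply, Real.norm_eq_abs]
      have := h i
      nlinarith [abs_nonneg (((s i : ℤ) : ℝ) * x i + v i)]
    linarith [h2 0, h2 1, h2 2, h2 3]

/-- The data are invariant and well formed. -/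
lemma data_of {κ : ℝ} (hκ : κ ≠ 0) {S : Set ((Fin 4 → ℤˣ) × (Fin 4 → ℝ))}
    (hD : IsDeck (grp S))
    (h : ∀ s v, (s, v) ∈ S → ∃ a b, AdaptV κ (dg s v) a b) :
    IsData (grp S) (fun _ => Fol) (xi κ) L1 (L2 κ) := by
  refine ⟨hD, ⟨?_, ?_, ?_, ?_⟩, fol_foliation, ⟨fun x => ⟨_, xi_frame κ x⟩, fun x =>
    ⟨xi_le_Fol κ x, brk_xi hκ x⟩⟩, L1_dist, L2_dist κ, fun x => ⟨L_disj κ x, rfl⟩⟩
  · rintro _ ⟨s, v, hsv, rfl⟩ x
    rw [dif_dg]
    exact Fol_map s v
  · rintro _ ⟨s, v, hsv, rfl⟩ x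
    obtain ⟨a, b, hab⟩ := h s v hsv
    rw [dif_dg]
    exact hab.xi_map x
  · rintro _ ⟨s, v, hsv, rfl⟩ x
    obtain ⟨a, b, hab⟩ := h s v hsv
    rw [dif_dg]
    exact hab.L1_map x
  · rintro _ ⟨s, v, hsv, rfl⟩ x
    obtain ⟨a, b, hab⟩ := h s v hsv
    rw [dif_dg]
    exact hab.L2_map x

end Run7.h329.Engel
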