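import Pool.Agent.Run7.h329.Eng.Global

open Topology Module VectorField

namespace Run7.h329.Engel

/-- `g` is adapted to the model frame: it multiplies `e1` by `s` and `e2` by `t`. -/
def Adapt (κ : ℝ) (g : E4 ≃ᵃⁱ[ℝ] E4) (s t : ℝ) : Prop :=
  (∀ v, (g.linearIsometryEquiv v) 0 = s * v 0) ∧
    ∀ y v, p2 κ (g y) (g.linearIsometryEquiv v) = t * p2 κ y v

lemma lieBracket_smooth {U V : E4 → E4} (hU : ContDiff ℝ (⊤ : ℕ∞) U)
    (hV : ContDiff ℝ (⊤ : ℕ∞) V) : ContDiff ℝ (⊤ : ℕ∞) (lieBracket ℝ U V) := by
  have h1 : ContDiff ℝ (⊤ : ℕ∞) (fderiv ℝ U) := hU.fderiv_right (by simp)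
  have h2 : ContDiff ℝ (⊤ : ℕ∞) (fderiv ℝ V) := hV.fderiv_right (by simp)
  exact (h2.clm_apply hU).sub (h1.clm_apply hV)

/-- The main abstract obstruction. -/
theorem exists_section {κ : ℝ} {D : E4 → Submodule ℝ E4} (hD : IsDist 2 D)
    (hE : IsDist 3 (brk D)) (hT : ∀ x, brk (brk D) x = ⊤) (hN : ND κ D) :
    ∃ A B : E4 → ℝ, Continuous A ∧ Continuous B ∧ (∀ y, A y ≠ 0 ∨ B y ≠ 0) ∧
      ∀ (g : E4 ≃ᵃⁱ[ℝ] E4) (s t : ℝ), s * s = 1 → t * t = 1 →
        (∀ x, D (g x) = (D x).map g.linearIsometryEquiv.toLinearEquiv.toLinearMap) →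
        Adapt κ g s t → ∀ y,
          A (g y) = s * (LinearMap.det g.linearIsometryEquiv.toLinearEquiv.toLinearMap * A y) ∧
          B (g y) = t * (LinearMap.det g.linearIsometryEquiv.toLinearEquiv.toLinearMap * B y) := by
  obtain ⟨U, V, hU, hV, hUV⟩ := global_frame hD hN
  have hp2s : ∀ (y : E4) (a b : ℝ) (u v : E4),
      p2 κ y (a • u + b • v) = a * p2 κ y u + b * p2 κ y v := by
    intro y a b u v
    simp [p2]
    ring
  have uniq : ∀ y, ∀ u ∈ D y, ∀ v ∈ D y, u 0 = v 0 → p2 κ y u = p2 κ y v → u = v := by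
    intro y u hu v hv h1 h2
    have h3 := hN y (u - v) (Submodule.sub_mem _ hu hv) (by simp [h1]) (by
      have := hp2s y 1 (-1) u v
      simp only [one_smul, neg_smul, ← sub_eq_add_neg] at this
      rw [this, h2]
      ring)
    exact sub_eq_zero.mp h3
  -- the frame of `D`
  have hspan2 : ∀ y, D y = Submodule.span ℝ (Set.range fun i => (![U, V] : Fin 2 → E4 → E4) i y) := by
    intro y
    apply le_antisymm
    · intro v hv
      have h1 : v = v 0 • U y + p2 κ y v • V y := by
        apply uniq y v hv _ (Submodule.add_mem _ (Submodule.smul_mem _ _ (hUV y).1)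
          (Submodule.smul_mem _ _ (hUV y).2.1))
        · simp [(hUV y).2.2.1, (hUV y).2.2.2.2.1]
        · rw [hp2s, (hUV y).2.2.2.1, (hUV y).2.2.2.2.2]
          ring
      rw [h1]
      exact Submodule.add_mem _ (Submodule.smul_mem _ _ (Submodule.subset_span ⟨0, rfl⟩))
        (Submodule.smul_mem _ _ (Submodule.subset_span ⟨1, rfl⟩))
    · rw [Submodule.span_le]
      rintro _ ⟨i, rfl⟩
      fin_cases i
      · exact (hUV y).1
      · exact (hUV y).2.1
  have hLI2 : ∀ y, LinearIndependent ℝ fun i => (![U, V] : Fin 2 → E4 → E4) i y := by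
    intro y
    rw [Fintype.linearIndependent_iff]
    intro c hc
    simp only [Fin.sum_univ_two, Matrix.cons_val_zero, Matrix.cons_val_one] at hc
    have h1 : (c 0 • U y + c 1 • V y) 0 = 0 := by rw [hc]; simp
    have h2 : p2 κ y (c 0 • U y + c 1 • V y) = 0 := by rw [hc]; simp [p2]
    rw [hp2s, (hUV y).2.2.2.1, (hUV y).2.2.2.2.2] at h2
    simp [(hUV y).2.2.1, (hUV y).2.2.2.2.1] at h1
    intro i
    fin_cases i
    · exact h1
    · simpa using h2
  have hfr2 : ∀ y, IsFrame 2 D y ![U, V] := by
    intro y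
    refine Filter.Eventually.of_forall fun z => ⟨?_, hLI2 z, hspan2 z⟩
    intro i
    fin_cases i
    · exact hU.contDiffAt
    · exact hV.contDiffAt
  set C : E4 → E4 := lieBracket ℝ U V with hC
  have hCs : ContDiff ℝ (⊤ : ℕ∞) C := lieBracket_smooth hU hV
  set Xs : Fin 3 → E4 → E4 := ![U, V, C] with hXs
  have hspan3 : ∀ y, brk D y = Submodule.span ℝ (Set.range fun i => Xs i y) := by
    intro y
    apply le_antisymm
    · intro v hv
      by_contra hcon
      obtain ⟨β, hβv, hβ⟩ := Submodule.exists_le_ker_of_notMem hcon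
      have h0 : ∀ i, β (Xs i y) = 0 := fun i => hβ (Submodule.subset_span ⟨i, rfl⟩)
      have h1 : β (U y) = 0 := h0 0
      have h2 : β (V y) = 0 := h0 1
      have h3 : β (lieBracket ℝ U V y) = 0 := h0 2
      have h4 : β (lieBracket ℝ V U y) = 0 := by
        rw [lieBracket_swap]
        simp [h3]
      have := brk_le (hfr2 y) β (by
        intro i
        fin_cases i
        · exact h1
        · exact h2) (by
        intro i j
        fin_cases i <;> fin_cases j
        · simp
        · exact h3
        · exact h4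
        · simp) hv
      exact hβv this
    · rw [Submodule.span_le]
      rintro _ ⟨i, rfl⟩
      fin_cases i
      · exact Submodule.mem_sup_left (hUV y).1
      · exact Submodule.mem_sup_left (hUV y).2.1
      · refine Submodule.mem_sup_right (Submodule.subset_span ⟨U, V, ?_, ?_, rfl⟩)
        · exact Filter.Eventually.of_forall fun z => ⟨hU.contDiffAt, (hUV z).1⟩
        · exact Filter.Eventually.of_forall fun z => ⟨hV.contDiffAt, (hUV z).2.1⟩
  have hLI3 : ∀ y, LinearIndependent ℝ fun i => Xs i y := by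
    intro y
    rw [linearIndependent_iff_card_eq_finrank_span, Set.finrank, ← hspan3 y]
    obtain ⟨Y, hY⟩ := hE y
    have h1 := hY.self_of_nhds
    rw [h1.2.2, finrank_span_eq_card h1.2.1]
  have hXs_s : ∀ i, ContDiff ℝ (⊤ : ℕ∞) (Xs i) := by
    intro i
    fin_cases i
    · exact hU
    · exact hV
    · exact hCs
  have hfr3 : ∀ y, IsFrame 3 (brk D) y Xs := fun y =>
    Filter.Eventually.of_forall fun z => ⟨fun i => (hXs_s i).contDiffAt, hLI3 z, hspan3 z⟩
  have hVC : ContDiff ℝ (⊤ : ℕ∞) (lieBracket ℝ V C) := lieBracket_smooth hV hCs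
  have hUC : ContDiff ℝ (⊤ : ℕ∞) (lieBracket ℝ U C) := lieBracket_smooth hU hCs
  refine ⟨fun y => bt (fun i => Xs i y) (lieBracket ℝ V C y),
    fun y => bt (fun i => Xs i y) (lieBracket ℝ U C y),
    vol_continuous (fun i => (hXs_s i).continuous) hVC.continuous,
    vol_continuous (fun i => (hXs_s i).continuous) hUC.continuous, ?_, ?_⟩
  · intro y
    by_contra hcon
    push Not at hcon
    obtain ⟨hA, hB⟩ := hcon
    have hb : ∀ i, bt (fun i => Xs i y) (Xs i y) = 0 := fun i => bt_self (fun i => Xs i y) i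
    have h3 : bt (fun i => Xs i y) (lieBracket ℝ U V y) = 0 := hb 2
    have hsw : ∀ P Q : E4 → E4, bt (fun i => Xs i y) (lieBracket ℝ P Q y) = 0 →
        bt (fun i => Xs i y) (lieBracket ℝ Q P y) = 0 := by
      intro P Q h
      rw [lieBracket_swap]
      simp [h]
    have h4 := brk_le (hfr3 y) (bt fun i => Xs i y) hb (by
      intro i j
      fin_cases i <;> fin_cases j
      · simp
      · exact h3
      · exact hB
      · exact hsw _ _ h3
      · simp
      · exact hA
      · exact hsw _ _ hB
      · exact hsw _ _ hA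
      · simp)
    rw [hT y] at h4
    exact bt_ne (hLI3 y) (top_le_iff.mp h4)
  · intro g s t hs ht hg hAd y
    have eU : Eqv g s U := by
      intro z
      apply uniq (g z) _ (hUV (g z)).1
      · rw [hg z]
        exact Submodule.smul_mem _ _ (Submodule.mem_map_of_mem (hUV z).1)
      · rw [(hUV (g z)).2.2.1, PiLp.smul_apply, hAd.1, (hUV z).2.2.1, smul_eq_mul, mul_one, hs]
      · have h1 := hp2s (g z) s 0 (g.linearIsometryEquiv (U z)) 0
        simp only [smul_zero, add_zero, zero_mul] at h1
        rw [(hUV (g z)).2.2.2.1, h1, hAd.2, (hUV z).2.2.2.1]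
        ring
    have eV : Eqv g t V := by
      intro z
      apply uniq (g z) _ (hUV (g z)).2.1
      · rw [hg z]
        exact Submodule.smul_mem _ _ (Submodule.mem_map_of_mem (hUV z).2.1)
      · rw [(hUV (g z)).2.2.2.2.1, PiLp.smul_apply, hAd.1, (hUV z).2.2.2.2.1]
        simp
      · have h1 := hp2s (g z) t 0 (g.linearIsometryEquiv (V z)) 0
        simp only [smul_zero, add_zero, zero_mul] at h1
        rw [(hUV (g z)).2.2.2.2.2, h1, hAd.2, (hUV z).2.2.2.2.2, mul_one, ht]
    have dU : Differentiable ℝ U := hU.differentiable (by simp)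
    have dV : Differentiable ℝ V := hV.differentiable (by simp)
    have dC : Differentiable ℝ C := hCs.differentiable (by simp)
    have eC : Eqv g (s * t) C := eU.lie eV dU dV
    have eVC : Eqv g (t * (s * t)) (lieBracket ℝ V C) := eV.lie eC dV dC
    have eUC : Eqv g (s * (s * t)) (lieBracket ℝ U C) := eU.lie eC dU dC
    have key : ∀ (r : ℝ) (W : E4 → E4), Eqv g r W →
        bt (fun i => Xs i (g y)) (W (g y)) = r * s * t * (s * t) *
          (LinearMap.det g.linearIsometryEquiv.toLinearEquiv.toLinearMap *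
            bt (fun i => Xs i y) (W y)) := by
      intro r W hW
      simp only [bt_apply]
      have h1 : (Fin.cons (W (g y)) (fun i => Xs i (g y)) : Fin 4 → E4) =
          fun i => (![r, s, t, s * t] : Fin 4 → ℝ) i •
            (g.linearIsometryEquiv.toLinearEquiv.toLinearMap ∘
              (Fin.cons (W y) (fun i => Xs i y) : Fin 4 → E4)) i := by
        funext i
        fin_cases i
        · exact hW y
        · exact eU y
        · exact eV y
        · exact eC y
      rw [h1, AlternatingMap.map_smul_univ, vol, Basis.det_comp, smul_eq_mul]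
      congr 1
      simp [Fin.prod_univ_four]
    have hA := key _ _ eVC
    have hB := key _ _ eUC
    refine ⟨?_, ?_⟩
    · show bt (fun i => Xs i (g y)) (lieBracket ℝ V C (g y)) = _
      rw [hA]
      have : t * (s * t) * s * t * (s * t) = s * ((s * s) * ((t * t) * (t * t))) := by ring
      rw [this, hs, ht]
      ring
    · show bt (fun i => Xs i (g y)) (lieBracket ℝ U C (g y)) = _
      rw [hB]
      have : s * (s * t) * s * t * (s * t) = t * ((s * s) * ((s * s) * (t * t))) := by ring
      rw [this, hs, ht]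
      ring

end Run7.h329.Engel
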