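import Mathlib

open Topology

namespace Run7.h329.Engel

lemma log_exists {z : ℝ × ℝ → ℂ} (hz : Continuous z) (h0 : ∀ p, z p ≠ 0) :
    ∃ f : ℝ × ℝ → ℂ, Continuous f ∧ ∀ p, Complex.exp (f p) = z p := by
  have hsc : IsSimplyConnected (Set.univ : Set (ℝ × ℝ)) := by
    have : ContractibleSpace (Set.univ : Set (ℝ × ℝ)) :=
      Convex.contractibleSpace convex_univ Set.univ_nonempty
    show SimplyConnectedSpace (Set.univ : Set (ℝ × ℝ))
    infer_instance
  obtain ⟨f, hf, hfe⟩ := Complex.exists_continuousOn_eqOn_exp_comp hsc isOpen_univ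
    hz.continuousOn (by rintro ⟨p, -, hp⟩; exact h0 p hp)
  exact ⟨f, continuousOn_univ.mp hf, fun p => hfe (Set.mem_univ p)⟩

/-- Two continuous logarithms of the same function differ by a constant multiple of `2πi`. -/
lemma log_diff {f g : ℝ × ℝ → ℂ} (hf : Continuous f) (hg : Continuous g)
    (h : ∀ p, Complex.exp (f p) = Complex.exp (g p)) :
    ∃ n : ℤ, ∀ p, f p = g p + n * (2 * Real.pi * Complex.I) := by
  have h1 : ∀ p, ∃ n : ℤ, f p = g p + n * (2 * Real.pi * Complex.I) := fun p =>
    Complex.exp_eq_exp_iff_exists_int.mp (h p)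
  choose n hn using h1
  have hpi : (2 * Real.pi * Complex.I : ℂ) ≠ 0 := by
    simp [Real.pi_ne_zero]
  have hc : Continuous fun p => ((n p : ℤ) : ℝ) := by
    have h2 : (fun p => ((n p : ℤ) : ℝ)) =
        fun p => ((f p - g p) / (2 * Real.pi * Complex.I)).re := by
      funext p
      rw [hn p]
      have : (g p + (n p : ℂ) * (2 * Real.pi * Complex.I) - g p) / (2 * Real.pi * Complex.I)
          = ((n p : ℝ) : ℂ) := by
        rw [add_sub_cancel_left, mul_div_assoc, div_self hpi, mul_one]
        push_cast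
        rfl
      rw [this, Complex.ofReal_re]
    rw [h2]
    exact Complex.continuous_re.comp ((hf.sub hg).div_const _)
  have hc2 : Continuous n := by
    have := Int.isClosedEmbedding_coe_real
    exact this.isInducing.continuous_iff.mpr hc
  refine ⟨n (0, 0), fun p => ?_⟩
  have hpc : n p = n (0, 0) :=
    PreconnectedSpace.constant inferInstance hc2
  rw [hn p, hpc]

/-- Obstruction lemma for the first example. -/
lemma no_section_one {z : ℝ × ℝ → ℂ} {T S : ℝ} (hz : Continuous z) (h0 : ∀ p, z p ≠ 0)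
    (h1 : ∀ a b, z (a + T, b) = (starRingEnd ℂ) (z (a, b)))
    (h2 : ∀ a b, z (-a, b + S) = -(starRingEnd ℂ) (z (a, b))) : False := by
  obtain ⟨f, hf, hfe⟩ := log_exists hz h0
  obtain ⟨k, hk⟩ := log_diff (f := fun p => f (p.1 + T, p.2))
    (g := fun p => (starRingEnd ℂ) (f p)) (by fun_prop)
    (Complex.continuous_conj.comp hf) (by
      intro p
      rw [Complex.exp_conj, hfe, hfe, h1])
  obtain ⟨l, hl⟩ := log_diff (f := fun p => f (-p.1, p.2 + S))
    (g := fun p => (starRingEnd ℂ) (f p) + Real.pi * Complex.I) (by fun_prop)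
    ((Complex.continuous_conj.comp hf).add continuous_const) (by
      intro p
      rw [Complex.exp_add, Complex.exp_conj, hfe, hfe, h2, Complex.exp_pi_mul_I]
      ring)
  have e1 := congrArg Complex.im (hk (0, 0))
  have e2 := congrArg Complex.im (hl (T, 0))
  have e3 := congrArg Complex.im (hk (-T, S))
  have e4 := congrArg Complex.im (hl (0, 0))
  simp at e1 e2 e3 e4
  have h5 : Real.pi * (2 : ℝ) * ((k : ℝ) - l) = Real.pi := by linarith
  have h6 : (2 : ℝ) * ((k : ℝ) - l) = 1 := by
    have := Real.pi_ne_zero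
    field_simp at h5
    linarith
  have h7 : (2 : ℤ) * (k - l) = 1 := by exact_mod_cast h6
  omega

/-- Obstruction lemma for the second example. -/
lemma no_section_two {z : ℝ × ℝ → ℂ} {T S : ℝ} (hz : Continuous z) (h0 : ∀ p, z p ≠ 0)
    (h1 : ∀ a b, z (a + T, -b) = z (a, b))
    (h2 : ∀ a b, z (a, b + S) = -z (a, b)) : False := by
  obtain ⟨f, hf, hfe⟩ := log_exists hz h0
  obtain ⟨k, hk⟩ := log_diff (f := fun p => f (p.1 + T, -p.2))
    (g := f) (by fun_prop) hf (by
      intro p
      rw [hfe, hfe, h1])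
  obtain ⟨l, hl⟩ := log_diff (f := fun p => f (p.1, p.2 + S))
    (g := fun p => f p + Real.pi * Complex.I) (by fun_prop)
    (hf.add continuous_const) (by
      intro p
      rw [Complex.exp_add, hfe, hfe, h2, Complex.exp_pi_mul_I]
      ring)
  have e1 := congrArg Complex.im (hk (0, 0))
  have e2 := congrArg Complex.im (hk (0, S))
  have e3 := congrArg Complex.im (hl (0, 0))
  have e4 := congrArg Complex.im (hl (T, -S))
  simp at e1 e2 e3 e4
  have h5 : Real.pi * (2 : ℝ) * (2 * (l : ℝ) + 1) = 0 := by linarith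
  have h6 : (2 * (l : ℝ) + 1) = 0 := by
    have := Real.pi_ne_zero
    have h8 : (Real.pi * 2 : ℝ) ≠ 0 := by positivity
    exact (mul_eq_zero.mp h5).resolve_left h8
  have h7 : (2 * l + 1 : ℤ) = 0 := by exact_mod_cast h6
  omega

end Run7.h329.Engel
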