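import Pool.Agent.Run7.h329.Eng.Main
import Pool.Agent.Run7.h329.Eng.Top

open Topology Module VectorField

namespace Run7.h329.Engel

/-- the tangent hyperplane of the model foliation -/
noncomputable def Fol : Submodule ℝ E4 :=
  LinearMap.ker ((EuclideanSpace.proj (3 : Fin 4) : E4 →L[ℝ] ℝ) : E4 →ₗ[ℝ] ℝ)

lemma mem_Fol (v : E4) : v ∈ Fol ↔ v 3 = 0 := by
  simp [Fol, LinearMap.mem_ker]

/-- the first line field -/
noncomputable def L1 (_ : E4) : Submodule ℝ E4 := Submodule.span ℝ {e1}

/-- the second line field -/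
noncomputable def L2 (κ : ℝ) (y : E4) : Submodule ℝ E4 := Submodule.span ℝ {e2 κ y}

/-- the model leafwise contact structure -/
noncomputable def xi (κ : ℝ) (y : E4) : Submodule ℝ E4 := L1 y ⊔ L2 κ y

lemma e2_smooth (κ : ℝ) : ContDiff ℝ (⊤ : ℕ∞) (e2 κ) := by
  rw [contDiff_euclidean]
  intro i
  have h0 : ContDiff ℝ (⊤ : ℕ∞) (fun y : E4 => κ * y 0) := contDiff_const.mul (contDiff_coord 0)
  fin_cases i
  · exact contDiff_const
  · exact h0.cos
  · exact h0.sin
  · exact contDiff_const

lemma e1_ne : e1 ≠ 0 := by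
  intro h
  have := congrArg (fun v : E4 => v 0) h
  simp [e1] at this

lemma e2_zero (κ : ℝ) (y : E4) : e2 κ y 0 = 0 := by simp [e2]
lemma e2_one (κ : ℝ) (y : E4) : e2 κ y 1 = Real.cos (κ * y 0) := by simp [e2]
lemma e2_two (κ : ℝ) (y : E4) : e2 κ y 2 = Real.sin (κ * y 0) := by simp [e2]
lemma e2_three (κ : ℝ) (y : E4) : e2 κ y 3 = 0 := by simp [e2]
lemma e1_zero : e1 0 = 1 := by simp [e1]
lemma e1_one : e1 1 = 0 := by simp [e1]
lemma e1_two : e1 2 = 0 := by simp [e1]
lemma e1_three : e1 3 = 0 := by simp [e1]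

lemma p2_e2 (κ : ℝ) (y : E4) : p2 κ y (e2 κ y) = 1 := by
  simp only [p2, e2_one, e2_two]
  nlinarith [Real.sin_sq_add_cos_sq (κ * y 0)]

lemma e2_ne (κ : ℝ) (y : E4) : e2 κ y ≠ 0 := by
  intro h
  have := p2_e2 κ y
  rw [h] at this
  simp [p2] at this

lemma frame_LI (κ : ℝ) (y : E4) :
    LinearIndependent ℝ fun i => (![fun _ => e1, e2 κ] : Fin 2 → E4 → E4) i y := by
  rw [Fintype.linearIndependent_iff]
  intro c hc
  simp only [Fin.sum_univ_two, Matrix.cons_val_zero, Matrix.cons_val_one] at hc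
  have h0 := congrArg (fun v : E4 => v 0) hc
  have h1 := congrArg (fun v : E4 => v 1) hc
  have h2 := congrArg (fun v : E4 => v 2) hc
  simp [e1_zero, e1_one, e1_two, e2_zero, e2_one, e2_two] at h0 h1 h2
  intro i
  fin_cases i
  · exact h0
  · rcases h1 with h1 | h1
    · exact h1
    · rcases h2 with h2 | h2
      · exact h2
      · have := Real.sin_sq_add_cos_sq (κ * y 0)
        rw [h1, h2] at this
        norm_num at this

lemma xi_span (κ : ℝ) (y : E4) : xi κ y =
    Submodule.span ℝ (Set.range fun i => (![fun _ => e1, e2 κ] : Fin 2 → E4 → E4) i y) := by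
  apply le_antisymm
  · refine sup_le ?_ ?_
    · rw [L1, Submodule.span_le, Set.singleton_subset_iff]
      exact Submodule.subset_span ⟨0, rfl⟩
    · rw [L2, Submodule.span_le, Set.singleton_subset_iff]
      exact Submodule.subset_span ⟨1, rfl⟩
  · rw [Submodule.span_le]
    rintro _ ⟨i, rfl⟩
    fin_cases i
    · exact Submodule.mem_sup_left (Submodule.mem_span_singleton_self _)
    · exact Submodule.mem_sup_right (Submodule.mem_span_singleton_self _)

lemma xi_frame (κ : ℝ) (x : E4) : IsFrame 2 (xi κ) x ![fun _ => e1, e2 κ] := by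
  refine Filter.Eventually.of_forall fun z => ⟨?_, frame_LI κ z, xi_span κ z⟩
  intro i
  fin_cases i
  · exact contDiffAt_const
  · exact (e2_smooth κ).contDiffAt

lemma L1_dist : IsDist 1 L1 := by
  intro x
  refine ⟨![fun _ => e1], Filter.Eventually.of_forall fun z => ⟨?_, ?_, ?_⟩⟩
  · intro i
    fin_cases i
    exact contDiffAt_const
  · rw [Fintype.linearIndependent_iff]
    intro c hc i
    fin_cases i
    simpa [e1_ne] using hc
  · rw [L1]
    congr 1
    ext v
    simp

lemma L2_dist (κ : ℝ) : IsDist 1 (L2 κ) := by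
  intro x
  refine ⟨![e2 κ], Filter.Eventually.of_forall fun z => ⟨?_, ?_, ?_⟩⟩
  · intro i
    fin_cases i
    exact (e2_smooth κ).contDiffAt
  · rw [Fintype.linearIndependent_iff]
    intro c hc i
    fin_cases i
    simpa [e2_ne] using hc
  · rw [L2]
    congr 1
    ext v
    simp

lemma fol_foliation : IsFoliation fun _ => Fol := by
  intro x
  refine ⟨fun v => v 3, Filter.Eventually.of_forall fun z => ⟨(contDiff_coord 3).contDiffAt, ?_⟩⟩
  have h : fderiv ℝ (fun v : E4 => v 3) z = (EuclideanSpace.proj (3 : Fin 4) : E4 →L[ℝ] ℝ) :=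
    (EuclideanSpace.proj (3 : Fin 4) : E4 →L[ℝ] ℝ).fderiv
  have hk : kdif (fun v : E4 => v 3) z = Fol := by
    rw [kdif, h]
    rfl
  rw [hk]
  refine ⟨?_, rfl⟩
  intro h2
  have h3 : (EuclideanSpace.single 3 1 : E4) ∈ Fol := by rw [h2]; trivial
  rw [mem_Fol] at h3
  simp at h3

lemma xi_le_Fol (κ : ℝ) (x : E4) : xi κ x ≤ Fol := by
  refine sup_le ?_ ?_
  · rw [L1, Submodule.span_le, Set.singleton_subset_iff]
    exact (mem_Fol _).mpr e1_three
  · rw [L2, Submodule.span_le, Set.singleton_subset_iff]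
    exact (mem_Fol _).mpr (e2_three κ x)

/-- the third field -/
noncomputable def e3 (κ : ℝ) (y : E4) : E4 :=
  !₂[0, -(Real.sin (κ * y 0)), Real.cos (κ * y 0), 0]

lemma lie_e1_e2 (κ : ℝ) (y : E4) : lieBracket ℝ (fun _ => e1) (e2 κ) y = κ • e3 κ y := by
  have hd : HasFDerivAt (fun y : E4 => κ * y 0)
      (κ • (EuclideanSpace.proj (0 : Fin 4) : E4 →L[ℝ] ℝ)) y :=
    ((EuclideanSpace.proj (0 : Fin 4) : E4 →L[ℝ] ℝ).hasFDerivAt).const_mul κ
  have h1 : HasFDerivAt (e2 κ) ((κ • (EuclideanSpace.proj (0 : Fin 4) : E4 →L[ℝ] ℝ)).smulRight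
      (e3 κ y)) y := by
    rw [← hasFDerivWithinAt_univ, hasFDerivWithinAt_euclidean]
    intro i
    rw [hasFDerivWithinAt_univ]
    fin_cases i
    · have h : (fun x : E4 => (e2 κ x) 0) = fun _ => (0 : ℝ) := funext fun x => e2_zero κ x
      simp only [Fin.zero_eta]
      rw [h]
      refine (hasFDerivAt_const (0 : ℝ) y).congr_fderiv ?_
      apply ContinuousLinearMap.ext
      intro v
      simp [e3]
    · have h : (fun x : E4 => (e2 κ x) 1) = fun x => Real.cos (κ * x 0) :=
        funext fun x => e2_one κ x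
      simp only [Fin.mk_one]
      rw [h]
      refine hd.cos.congr_fderiv ?_
      apply ContinuousLinearMap.ext
      intro v
      simp [e3]
      ring
    · have h : (fun x : E4 => (e2 κ x) 2) = fun x => Real.sin (κ * x 0) :=
        funext fun x => e2_two κ x
      simp only [Fin.reduceFinMk]
      rw [h]
      refine hd.sin.congr_fderiv ?_
      apply ContinuousLinearMap.ext
      intro v
      simp [e3]
      ring
    · have h : (fun x : E4 => (e2 κ x) 3) = fun _ => (0 : ℝ) := funext fun x => e2_three κ x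
      simp only [Fin.reduceFinMk]
      rw [h]
      refine (hasFDerivAt_const (0 : ℝ) y).congr_fderiv ?_
      apply ContinuousLinearMap.ext
      intro v
      simp [e3]
  rw [lieBracket, h1.fderiv]
  simp [e1_zero]

lemma brk_xi {κ : ℝ} (hκ : κ ≠ 0) (x : E4) : brk (xi κ) x = Fol := by
  apply le_antisymm
  · have h := brk_le (xi_frame κ x)
      ((EuclideanSpace.proj (3 : Fin 4) : E4 →L[ℝ] ℝ) : E4 →ₗ[ℝ] ℝ) (by
        intro i
        fin_cases i
        · simpa using e1_three
        · simpa using e2_three κ x) (by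
        have h1 : (lieBracket ℝ (fun _ => e1) (e2 κ) x) 3 = 0 := by
          rw [lie_e1_e2]
          simp [e3]
        intro i j
        fin_cases i <;> fin_cases j
        · simp
        · simpa using h1
        · show (lieBracket ℝ (e2 κ) (fun _ => e1) x) 3 = 0
          rw [lieBracket_swap]
          simp [h1]
        · simp)
    exact h
  · intro v hv
    rw [mem_Fol] at hv
    have h1 : v = (v 0 • e1 + p2 κ x v • e2 κ x) +
        ((-(Real.sin (κ * x 0)) * v 1 + Real.cos (κ * x 0) * v 2) / κ) •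
          lieBracket ℝ (fun _ => e1) (e2 κ) x := by
      rw [lie_e1_e2, smul_smul, div_mul_cancel₀ _ hκ]
      have hsc := Real.sin_sq_add_cos_sq (κ * x 0)
      ext i
      fin_cases i
      · simp [e1, e2, e3]
      · simp [e1, e2, e3, p2]
        linear_combination (-(v 1)) * hsc
      · simp [e1, e2, e3, p2]
        linear_combination (-(v 2)) * hsc
      · simp [e1, e2, e3, hv]
    rw [h1]
    refine Submodule.add_mem _ (Submodule.mem_sup_left ?_)
      (Submodule.mem_sup_right (Submodule.smul_mem _ _ (Submodule.subset_span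
        ⟨fun _ => e1, e2 κ, ?_, ?_, rfl⟩)))
    · exact Submodule.add_mem _
        (Submodule.mem_sup_left (Submodule.smul_mem _ _ (Submodule.mem_span_singleton_self _)))
        (Submodule.mem_sup_right (Submodule.smul_mem _ _ (Submodule.mem_span_singleton_self _)))
    · exact Filter.Eventually.of_forall fun z => ⟨contDiffAt_const,
        Submodule.mem_sup_left (Submodule.mem_span_singleton_self _)⟩
    · exact Filter.Eventually.of_forall fun z => ⟨(e2_smooth κ).contDiffAt,
        Submodule.mem_sup_right (Submodule.mem_span_singleton_self _)⟩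

lemma L_disj (κ : ℝ) (x : E4) : L1 x ⊓ L2 κ x = ⊥ := by
  rw [Submodule.eq_bot_iff]
  rintro v ⟨h1, h2⟩
  rw [SetLike.mem_coe, L1, Submodule.mem_span_singleton] at h1
  rw [SetLike.mem_coe, L2, Submodule.mem_span_singleton] at h2
  obtain ⟨a, rfl⟩ := h1
  obtain ⟨b, hb⟩ := h2
  have h := congrArg (fun v : E4 => v 0) hb
  simp [e1_zero, e2_zero] at h
  rw [← h, zero_smul]

lemma near_ND {κ ε : ℝ} (hε : ε < 1) {D : E4 → Submodule ℝ E4} (h : Near ε D (xi κ)) :
    ND κ D := by
  intro y v hv h0 h1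
  obtain ⟨w, hw, hvw⟩ := h y v hv
  have hin : inner ℝ v w = 0 := by
    have hw' : w ∈ L1 y ⊔ L2 κ y := hw
    obtain ⟨a, ha, b, hb, rfl⟩ := Submodule.mem_sup.mp hw'
    rw [L1, Submodule.mem_span_singleton] at ha
    rw [L2, Submodule.mem_span_singleton] at hb
    obtain ⟨r, rfl⟩ := ha
    obtain ⟨s, rfl⟩ := hb
    rw [inner_add_right, inner_smul_right, inner_smul_right]
    have h2 : inner ℝ v e1 = 0 := by
      simp [PiLp.inner_apply, Fin.sum_univ_four, e1, h0]
    have h3 : inner ℝ v (e2 κ y) = 0 := by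
      simp only [p2] at h1
      simp [PiLp.inner_apply, Fin.sum_univ_four, e2]
      linarith
    rw [h2, h3]
    simp
  have h4 : ‖v - w‖ * ‖v - w‖ = ‖v‖ * ‖v‖ + ‖w‖ * ‖w‖ := by
    have := norm_sub_sq_real v w
    rw [hin] at this
    nlinarith
  by_contra hne
  have hpos : 0 < ‖v‖ := norm_pos_iff.mpr hne
  have h5 : ‖v - w‖ < ‖v‖ := lt_of_le_of_lt hvw (by nlinarith)
  nlinarith [norm_nonneg (v - w), norm_nonneg w, mul_self_nonneg ‖w‖]

end Run7.h329.Engel
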